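import Pool.Agent.H660R2.CurveDefs

/-!
# Curve reconstruction: the medial axis
-/

namespace Pool.Agent.H660R2.Curve

open Set Filter Topology
open scoped RealInnerProductSpace

variable (C : ClosedCurve)

lemma hasDeriv (t : ℝ) : HasDerivAt C.γ (deriv C.γ t) t :=
  ((C.smooth.differentiable (by norm_num)) t).hasDerivAt

lemma cont : Continuous C.γ := C.smooth.continuous

lemma periodic_int (t : ℝ) (n : ℤ) : C.γ (t + n) = C.γ t := by
  have h : Function.Periodic C.γ 1 := C.periodic
  simpa using h.int_mul n t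

lemma inj_lt {s t : ℝ} (h1 : s < t) (h2 : t < s + 1) : C.γ s ≠ C.γ t := by
  intro h
  obtain ⟨n, hn⟩ := C.simple s t h
  have h3 : (-1 : ℝ) < n := by linarith
  have h4 : (n : ℝ) < 0 := by linarith
  have h5 : (-1 : ℤ) < n := by exact_mod_cast h3
  have h6 : n < (0 : ℤ) := by exact_mod_cast h4
  omega

lemma mem_carrier (t : ℝ) : C.γ t ∈ C.carrier := ⟨t, rfl⟩

/-- every point of the curve has a parameter in `[t0, t0 + 1)` -/
lemma exists_param (t0 : ℝ) {p : Pt} (hp : p ∈ C.carrier) :
    ∃ t, t0 ≤ t ∧ t < t0 + 1 ∧ C.γ t = p := by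
  obtain ⟨s, rfl⟩ := hp
  refine ⟨s + (-⌊s - t0⌋ : ℤ), ?_, ?_, periodic_int C s _⟩
  · push_cast
    have := Int.floor_le (s - t0)
    linarith
  · push_cast
    have := Int.lt_floor_add_one (s - t0)
    linarith

/-- squared distance derivative -/
lemma hasDeriv_sq (z : Pt) (t : ℝ) :
    HasDerivAt (fun t => ‖C.γ t - z‖ ^ 2) (2 * ⟪C.γ t - z, deriv C.γ t⟫) t := by
  have h := ((hasDeriv C t).sub_const z)
  exact h.norm_sq

lemma hasDeriv_inner (v z : Pt) (t : ℝ) :
    HasDerivAt (fun t => ⟪C.γ t - z, v⟫) ⟪deriv C.γ t, v⟫ t := by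
  have h := ((hasDeriv C t).sub_const z)
  have h2 := h.inner ℝ (hasDerivAt_const t v)
  simpa using h2

/-- a critical point condition at a global minimum of the distance -/
lemma crit_of_min {z : Pt} {t0 : ℝ} (h : ∀ t, dist z (C.γ t0) ≤ dist z (C.γ t)) :
    ⟪C.γ t0 - z, deriv C.γ t0⟫ = 0 := by
  have hmin : IsLocalMin (fun t => ‖C.γ t - z‖ ^ 2) t0 := by
    refine Filter.Eventually.of_forall fun t => ?_
    have := h t
    rw [dist_comm z, dist_comm z, dist_eq_norm, dist_eq_norm] at this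
    have h0 := norm_nonneg (C.γ t0 - z)
    show ‖C.γ t0 - z‖ ^ 2 ≤ ‖C.γ t - z‖ ^ 2
    gcongr
  have := hmin.hasDerivAt_eq_zero (hasDeriv_sq C z t0)
  linarith

/-- near `t0` the curve moves in the direction of its tangent vector -/
lemma eventually_sign (t0 : ℝ) : ∃ η > 0, η < 1 / 2 ∧
    (∀ t, t0 < t → t ≤ t0 + η → 0 < ⟪C.γ t - C.γ t0, deriv C.γ t0⟫) ∧
    (∀ t, t0 - η ≤ t → t < t0 → ⟪C.γ t - C.γ t0, deriv C.γ t0⟫ < 0) := by
  have h := hasDeriv_inner C (deriv C.γ t0) (C.γ t0) t0
  have hpos : 0 < ⟪deriv C.γ t0, deriv C.γ t0⟫ := by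
    rw [real_inner_self_eq_norm_sq]
    have := norm_pos_iff.mpr (C.regular t0)
    positivity
  have h2 := h.tendsto_slope
  have h3 := h2.eventually (lt_mem_nhds hpos)
  rw [eventually_nhdsWithin_iff, Metric.eventually_nhds_iff] at h3
  obtain ⟨η, hη, h4⟩ := h3
  refine ⟨min (η / 2) (1 / 4), by positivity, ?_, ?_, ?_⟩
  · exact lt_of_le_of_lt (min_le_right _ _) (by norm_num)
  · intro t h5 h6
    have h7 : t ≤ t0 + η / 2 := h6.trans (by gcongr; exact min_le_left _ _)
    have h8 := h4 (y := t) (by rw [Real.dist_eq, abs_lt]; constructor <;> linarith)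
      (by simp; linarith)
    rw [slope_def_field] at h8
    simp only [sub_self, inner_zero_left, sub_zero] at h8
    have h9 : 0 < t - t0 := by linarith
    have := mul_pos h8 h9
    rwa [div_mul_cancel₀ _ h9.ne'] at this
  · intro t h5 h6
    have h7 : t0 - η / 2 ≤ t := le_trans (by gcongr; exact min_le_left _ _) h5
    have h8 := h4 (y := t) (by rw [Real.dist_eq, abs_lt]; constructor <;> linarith)
      (by simp; linarith)
    rw [slope_def_field] at h8
    simp only [sub_self, inner_zero_left, sub_zero] at h8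
    have h9 : t - t0 < 0 := by linarith
    have := mul_neg_of_pos_of_neg h8 h9
    rwa [div_mul_cancel₀ _ h9.ne] at this

/-- **Key lemma.** If `γ t0` is a nearest point of the curve to the point `γ t0 + s n` of its normal
line, but not to the points farther away, then `γ t0 + s n` is in the closure of the medial axis. -/
lemma mem_closure_medial {t0 s : ℝ} {n : Pt} (hn : ‖n‖ = 1) (horth : ⟪n, deriv C.γ t0⟫ = 0)
    (hs0 : 0 ≤ s) (hnear : ∀ t, s ≤ dist (C.γ t0 + s • n) (C.γ t))
    (hfar : ∀ s', s < s' → ∃ t, dist (C.γ t0 + s' • n) (C.γ t) < s') :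
    C.γ t0 + s • n ∈ closure (medialAxis C.carrier) := by
  by_contra hcl
  set y := C.γ t0 with hy
  set zs := y + s • n with hzs
  obtain ⟨δ0, hδ0, hball⟩ : ∃ δ > 0, ∀ z, dist z zs < δ → z ∉ medialAxis C.carrier := by
    rw [mem_closure_iff_nhds_basis Metric.nhds_basis_ball] at hcl
    push Not at hcl
    obtain ⟨δ, hδ, h⟩ := hcl
    exact ⟨δ, hδ, fun z hz hzm => h z hzm hz⟩
  have hdzs : dist zs y = s := by
    rw [hzs, dist_eq_norm, add_sub_cancel_left, norm_smul, hn, mul_one, Real.norm_of_nonneg hs0]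
  -- uniqueness of the nearest point
  have huniq : ∀ t, dist zs (C.γ t) ≤ s → C.γ t = y := by
    intro t ht
    have h1 : dist zs (C.γ t) = s := le_antisymm ht (hnear t)
    by_contra hne
    have hspos : 0 < s := by
      rcases hs0.eq_or_lt with h | h
      · exfalso
        rw [← h] at h1 hdzs
        exact hne ((dist_eq_zero.mp h1).symm.trans (dist_eq_zero.mp hdzs))
      · exact h
    refine hball zs (by simpa using hδ0) ⟨s, hspos, ?_, C.γ t, mem_carrier C t, y, mem_carrier C t0,
      hne, h1, hdzs⟩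
    rintro c ⟨t', rfl⟩
    exact hnear t'
  obtain ⟨η, hη, hη2, hpos, hneg⟩ := eventually_sign C t0
  -- compact part away from t0
  set K : Set ℝ := Icc (t0 + η) (t0 + 1 - η) with hK
  have hKne : K.Nonempty := ⟨t0 + η, by constructor <;> linarith⟩
  have hKc : IsCompact K := isCompact_Icc
  obtain ⟨tm, htm, hmin⟩ := hKc.exists_isMinOn hKne
    (f := fun t => dist zs (C.γ t)) (by
      apply Continuous.continuousOn
      exact continuous_const.dist (cont C))
  have hd1 : s < dist zs (C.γ tm) := by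
    refine lt_of_le_of_ne (hnear tm) fun h => ?_
    have h1 := huniq tm h.symm.le
    exact inj_lt C (s := t0) (t := tm) (by linarith [htm.1]) (by linarith [htm.2]) h1.symm
  set d1 := dist zs (C.γ tm) with hd1'
  have hKfar : ∀ t ∈ K, d1 ≤ dist zs (C.γ t) := fun t ht => hmin ht
  obtain ⟨δ, hδ, hδ1, hδ2⟩ : ∃ δ > 0, δ < δ0 ∧ 2 * δ < d1 - s := by
    refine ⟨min (δ0 / 2) ((d1 - s) / 4), ?_, ?_, ?_⟩
    · have : 0 < d1 - s := by linarith
      positivity
    · exact lt_of_le_of_lt (min_le_left _ _) (by linarith)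
    · have := min_le_right (δ0 / 2) ((d1 - s) / 4)
      linarith
  -- left and right part near t0
  set KR : Set Pt := C.γ '' Icc t0 (t0 + η) with hKR
  set KL : Set Pt := C.γ '' Icc (t0 - η) t0 with hKL
  have hKRc : IsCompact KR := isCompact_Icc.image (cont C)
  have hKLc : IsCompact KL := isCompact_Icc.image (cont C)
  have hyR : y ∈ KR := ⟨t0, by constructor <;> linarith, rfl⟩
  have hyL : y ∈ KL := ⟨t0, by constructor <;> linarith, rfl⟩
  -- the key claim: points in the δ-ball equidistant from KR and KL have y as nearest point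
  have hclaim : ∀ z, dist z zs ≤ δ → Metric.infDist z KR = Metric.infDist z KL →
      ∀ t, dist z y ≤ dist z (C.γ t) := by
    intro z hz heq
    obtain ⟨a, haR, ha⟩ := hKRc.exists_infDist_eq_dist ⟨y, hyR⟩ z
    obtain ⟨b, hbL, hb⟩ := hKLc.exists_infDist_eq_dist ⟨y, hyL⟩ z
    have hab : dist z a = dist z b := by rw [← ha, ← hb, heq]
    have hall : ∀ t, dist z a ≤ dist z (C.γ t) := by
      intro t
      obtain ⟨t', h1, h2, h3⟩ := exists_param C (t0 - η) (mem_carrier C t)
      rw [← h3]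
      rcases le_or_gt t' t0 with h4 | h4
      · rw [hab, ← hb]
        exact Metric.infDist_le_dist_of_mem ⟨t', ⟨h1, h4⟩, rfl⟩
      · rcases le_or_gt t' (t0 + η) with h5 | h5
        · rw [← ha]
          exact Metric.infDist_le_dist_of_mem ⟨t', ⟨h4.le, h5⟩, rfl⟩
        · have h6 := hKfar t' ⟨h5.le, by linarith⟩
          have h7 : dist z a ≤ dist z y := by
            rw [← ha]; exact Metric.infDist_le_dist_of_mem hyR
          have h8 : dist z y ≤ dist z zs + dist zs y := dist_triangle _ _ _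
          have h9 : dist zs (C.γ t') ≤ dist zs z + dist z (C.γ t') := dist_triangle _ _ _
          rw [dist_comm zs z] at h9
          linarith
    have hab' : a = b := by
      by_contra hne
      have hane : dist z a ≠ 0 := by
        intro h0
        apply hne
        rw [h0] at hab
        rw [← dist_eq_zero.mp h0, ← dist_eq_zero.mp hab.symm]
      refine hball z (lt_of_le_of_lt hz hδ1) ⟨dist z a, lt_of_le_of_ne dist_nonneg hane.symm, ?_,
        a, ?_, b, ?_, hne, rfl, hab.symm⟩
      · rintro c ⟨t', rfl⟩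
        exact hall t'
      · obtain ⟨t', -, rfl⟩ := haR; exact mem_carrier C t'
      · obtain ⟨t', -, rfl⟩ := hbL; exact mem_carrier C t'
    have hay : a = y := by
      obtain ⟨ta, hta, hta'⟩ := haR
      obtain ⟨tb, htb, htb'⟩ := hbL
      rcases eq_or_lt_of_le hta.1 with h | h
      · rw [← hta', ← h]
      · exfalso
        exact inj_lt C (s := tb) (t := ta) (by linarith [htb.2]) (by linarith [htb.1, hta.2])
          (by rw [hta', htb', hab'])
    intro t
    rw [← hay]
    exact hall t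
  -- unit tangent
  set T := deriv C.γ t0 with hT
  have hTpos : 0 < ‖T‖ := norm_pos_iff.mpr (C.regular t0)
  set e : Pt := (‖T‖⁻¹) • T with he
  have hen : ‖e‖ = 1 := by
    rw [he, norm_smul, norm_inv, norm_norm, inv_mul_cancel₀ hTpos.ne']
  have hne0 : ⟪n, e⟫ = 0 := by rw [he, inner_smul_right, horth, mul_zero]
  set δ1 := δ / 2 with hδ1'
  set zp := zs + δ1 • e with hzp
  set zm := zs - δ1 • e with hzm
  set zq := y + (s + δ1) • n with hzq
  have hzq' : zq = zs + δ1 • n := by rw [hzq, hzs, add_smul, add_assoc]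
  have hδ1pos : 0 < δ1 := by positivity
  -- distance of the path points to zs
  have hball' : ∀ (w : Pt), dist w zs ≤ δ1 → dist w zs ≤ δ := fun w hw => hw.trans (by
    rw [hδ1']; linarith)
  have hdp : dist zp zs = δ1 := by
    rw [hzp, dist_eq_norm, add_sub_cancel_left, norm_smul, hen, mul_one,
      Real.norm_of_nonneg hδ1pos.le]
  have hdm : dist zm zs = δ1 := by
    rw [hzm, dist_eq_norm, sub_sub_cancel_left, norm_neg, norm_smul, hen, mul_one,
      Real.norm_of_nonneg hδ1pos.le]
  have hdq : dist zq zs = δ1 := by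
    rw [hzq', dist_eq_norm, add_sub_cancel_left, norm_smul, hn, mul_one,
      Real.norm_of_nonneg hδ1pos.le]
  -- the path
  set P : Set Pt := segment ℝ zm zq ∪ segment ℝ zq zp with hP
  have hPpre : IsPreconnected P := by
    apply IsPreconnected.union zq (right_mem_segment _ _ _) (left_mem_segment _ _ _)
    · exact (convex_segment _ _).isPreconnected
    · exact (convex_segment _ _).isPreconnected
  have hPball : ∀ z ∈ P, dist z zs ≤ δ := by
    intro z hz
    have hconv : Convex ℝ (Metric.closedBall zs δ1) := convex_closedBall _ _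
    apply hball'
    rcases hz with hz | hz
    · exact hconv.segment_subset (Metric.mem_closedBall.mpr hdm.le)
        (Metric.mem_closedBall.mpr hdq.le) hz
    · exact hconv.segment_subset (Metric.mem_closedBall.mpr hdq.le)
        (Metric.mem_closedBall.mpr hdp.le) hz
  have hFR : IsClosed {z : Pt | Metric.infDist z KR ≤ Metric.infDist z KL} :=
    isClosed_le (Metric.continuous_infDist_pt _) (Metric.continuous_infDist_pt _)
  have hFL : IsClosed {z : Pt | Metric.infDist z KL ≤ Metric.infDist z KR} :=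
    isClosed_le (Metric.continuous_infDist_pt _) (Metric.continuous_infDist_pt _)
  -- squared distance computation
  have hsq : ∀ (t σ : ℝ), ‖C.γ t - (zs + σ • e)‖ ^ 2 =
      ‖C.γ t - zs‖ ^ 2 - 2 * σ * ⟪C.γ t - y, e⟫ + σ ^ 2 := by
    intro t σ
    have h1 : C.γ t - (zs + σ • e) = (C.γ t - zs) - σ • e := by abel
    rw [h1, norm_sub_sq_real, inner_smul_right, norm_smul, hen, mul_one, Real.norm_eq_abs, sq_abs]
    have h2 : ⟪C.γ t - zs, e⟫ = ⟪C.γ t - y, e⟫ := by
      have : C.γ t - zs = (C.γ t - y) - s • n := by rw [hzs]; abel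
      rw [this, inner_sub_left, inner_smul_left, hne0]
      simp
    rw [h2]; ring
  have hinnerR : ∀ t ∈ Icc t0 (t0 + η), 0 ≤ ⟪C.γ t - y, e⟫ := by
    intro t ht
    rw [he, inner_smul_right]
    rcases eq_or_lt_of_le ht.1 with h | h
    · rw [← h]; simp [hy]
    · exact mul_nonneg (by positivity) (hpos t h ht.2).le
  have hinnerL : ∀ t ∈ Icc (t0 - η) t0, ⟪C.γ t - y, e⟫ ≤ 0 := by
    intro t ht
    rw [he, inner_smul_right]
    rcases eq_or_lt_of_le ht.2 with h | h
    · rw [h]; simp [hy]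
    · exact mul_nonpos_of_nonneg_of_nonpos (by positivity) (hneg t ht.1 h).le
  have hsqle : ∀ (t σ : ℝ), 0 ≤ -(σ * ⟪C.γ t - y, e⟫) →
      dist (zs + σ • e) y ≤ dist (zs + σ • e) (C.γ t) := by
    intro t σ h
    rw [dist_comm _ y, dist_comm _ (C.γ t), dist_eq_norm, dist_eq_norm]
    apply le_of_sq_le_sq _ (norm_nonneg _)
    have h1 := hsq t σ
    have h2 := hsq t0 σ
    rw [← hy] at h2
    rw [h1, h2]
    simp only [sub_self, inner_zero_left]
    have h3 := hnear t
    rw [dist_comm, dist_eq_norm] at h3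
    have h4 : ‖y - zs‖ = s := by rw [← dist_eq_norm, dist_comm]; exact hdzs
    rw [h4]
    nlinarith
  have hpR : zp ∈ {z : Pt | Metric.infDist z KR ≤ Metric.infDist z KL} := by
    show Metric.infDist zp KR ≤ Metric.infDist zp KL
    have h1 : Metric.infDist zp KR ≤ dist zp y := Metric.infDist_le_dist_of_mem hyR
    refine h1.trans ?_
    obtain ⟨b, hbL, hb⟩ := hKLc.exists_infDist_eq_dist ⟨y, hyL⟩ zp
    rw [hb]
    obtain ⟨t, ht, rfl⟩ := hbL
    apply hsqle t δ1
    have := hinnerL t ht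
    nlinarith
  have hmL : zm ∈ {z : Pt | Metric.infDist z KL ≤ Metric.infDist z KR} := by
    show Metric.infDist zm KL ≤ Metric.infDist zm KR
    have h1 : Metric.infDist zm KL ≤ dist zm y := Metric.infDist_le_dist_of_mem hyL
    refine h1.trans ?_
    obtain ⟨b, hbL, hb⟩ := hKRc.exists_infDist_eq_dist ⟨y, hyR⟩ zm
    rw [hb]
    obtain ⟨t, ht, rfl⟩ := hbL
    have := hsqle t (-δ1) (by have := hinnerR t ht; nlinarith)
    have h2 : zs + (-δ1) • e = zm := by rw [hzm, neg_smul, sub_eq_add_neg]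
    rwa [h2] at this
  obtain ⟨z, hzP, hzR, hzL⟩ := isPreconnected_closed_iff.mp hPpre _ _ hFR hFL
    (fun z _ => (le_total (Metric.infDist z KR) (Metric.infDist z KL)).elim Or.inl Or.inr)
    ⟨zp, Or.inr (right_mem_segment _ _ _), hpR⟩ ⟨zm, Or.inl (left_mem_segment _ _ _), hmL⟩
  have hzeq : Metric.infDist z KR = Metric.infDist z KL := le_antisymm hzR hzL
  have hznear := hclaim z (hPball z hzP) hzeq
  have hcrit := crit_of_min C (z := z) (t0 := t0) hznear
  -- z = zq
  have hzzq : z = zq := by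
    have hcr : ⟪z - y, e⟫ = 0 := by
      rw [he, inner_smul_right]
      have : ⟪z - y, T⟫ = - ⟪y - z, T⟫ := by rw [← inner_neg_left, neg_sub]
      rw [this, hcrit]; simp
    have hee : ⟪e, e⟫ = 1 := by rw [real_inner_self_eq_norm_sq, hen]; norm_num
    rcases hzP with hz | hz
    · obtain ⟨a, b, ha, hb, hab, rfl⟩ := hz
      have h1 : a • zm + b • zq - y = (s + b * δ1) • n - (a * δ1) • e := by
        rw [hzq, hzm, hzs]
        have : b = 1 - a := by linarith
        rw [this]
        module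
      rw [h1, inner_sub_left, inner_smul_left, inner_smul_left, hne0, hee] at hcr
      simp at hcr
      rcases hcr with h | h
      · have hb1 : b = 1 := by linarith
        rw [h, hb1]; simp
      · exact absurd h hδ1pos.ne'
    · obtain ⟨a, b, ha, hb, hab, rfl⟩ := hz
      have h1 : a • zq + b • zp - y = (s + a * δ1) • n + (b * δ1) • e := by
        rw [hzq, hzp, hzs]
        have : b = 1 - a := by linarith
        rw [this]
        module
      rw [h1, inner_add_left, inner_smul_left, inner_smul_left, hne0, hee] at hcr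
      simp at hcr
      rcases hcr with h | h
      · have hb1 : a = 1 := by linarith
        rw [h, hb1]; simp
      · exact absurd h hδ1pos.ne'
  obtain ⟨t, ht⟩ := hfar (s + δ1) (by linarith)
  have h1 := hznear t
  rw [hzzq] at h1
  have h2 : dist zq y = s + δ1 := by
    rw [hzq, dist_eq_norm, add_sub_cancel_left, norm_smul, hn, mul_one,
      Real.norm_of_nonneg (by linarith)]
  rw [h2] at h1
  exact absurd ht (not_lt.mpr h1)

/-- If `γ t0` is not a nearest point to `γ t0 + s0 n` (`n` a unit normal), then the segment between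
these two points contains a point of the closure of the medial axis. -/
lemma exists_medial_normal {t0 s0 : ℝ} {n : Pt} (hn : ‖n‖ = 1)
    (horth : ⟪n, deriv C.γ t0⟫ = 0) (hs0 : 0 ≤ s0)
    (hfar : ∃ t, dist (C.γ t0 + s0 • n) (C.γ t) < s0) :
    ∃ s, 0 ≤ s ∧ s < s0 ∧ C.γ t0 + s • n ∈ closure (medialAxis C.carrier) := by
  set A : Set ℝ := {s | 0 ≤ s ∧ ∀ t, s ≤ dist (C.γ t0 + s • n) (C.γ t)} with hA
  have hdown : ∀ s ∈ A, ∀ s', 0 ≤ s' → s' ≤ s → s' ∈ A := by
    intro s hs s' h0 h1
    refine ⟨h0, fun t => ?_⟩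
    have h2 := hs.2 t
    have h3 : dist (C.γ t0 + s • n) (C.γ t) ≤
      dist (C.γ t0 + s • n) (C.γ t0 + s' • n) + dist (C.γ t0 + s' • n) (C.γ t) :=
      dist_triangle _ _ _
    have h4 : dist (C.γ t0 + s • n) (C.γ t0 + s' • n) = s - s' := by
      rw [dist_add_left, dist_eq_norm, ← sub_smul, norm_smul, hn, mul_one,
        Real.norm_of_nonneg (by linarith)]
    linarith
  have h0A : (0 : ℝ) ∈ A := ⟨le_rfl, fun t => dist_nonneg⟩
  have hs0A : s0 ∉ A := by
    intro h
    obtain ⟨t, ht⟩ := hfar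
    exact absurd (h.2 t) (not_le.mpr ht)
  have hub : ∀ s ∈ A, s < s0 := by
    intro s hs
    by_contra h
    push Not at h
    exact hs0A (hdown s hs s0 hs0 h)
  have hbdd : BddAbove A := ⟨s0, fun s hs => (hub s hs).le⟩
  have hclosed : IsClosed A := by
    have : A = {s | 0 ≤ s} ∩ ⋂ t, {s | s ≤ dist (C.γ t0 + s • n) (C.γ t)} := by
      ext s; simp [hA]
    rw [this]
    refine IsClosed.inter (isClosed_le continuous_const continuous_id) ?_
    refine isClosed_iInter fun t => isClosed_le continuous_id ?_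
    fun_prop
  have hsup : sSup A ∈ A := hclosed.csSup_mem ⟨0, h0A⟩ hbdd
  refine ⟨sSup A, hsup.1, hub _ hsup, ?_⟩
  apply mem_closure_medial C hn horth hsup.1 hsup.2
  intro s' hs'
  by_contra h
  push Not at h
  have : s' ∈ A := ⟨hsup.1.trans hs'.le, h⟩
  exact absurd (le_csSup hbdd this) (not_le.mpr hs')

lemma lfs_le_of_closure {x z : Pt} (hz : z ∈ closure (medialAxis C.carrier)) :
    lfs C.carrier x ≤ dist x z := by
  unfold lfs
  rw [← Metric.infDist_closure]
  exact Metric.infDist_le_dist_of_mem hz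

lemma lfs_le_of_mem {x z : Pt} (hz : z ∈ medialAxis C.carrier) :
    lfs C.carrier x ≤ dist x z := lfs_le_of_closure C (subset_closure hz)

lemma lfs_nonneg (x : Pt) : 0 ≤ lfs C.carrier x := Metric.infDist_nonneg

lemma lfs_lip (x y : Pt) : lfs C.carrier x ≤ lfs C.carrier y + dist x y := by
  unfold lfs
  exact Metric.infDist_le_infDist_add_dist

/-- tangent disks contain no point of the curve -/
lemma tangent_disk {t0 : ℝ} {n : Pt} (hn : ‖n‖ = 1) (horth : ⟪n, deriv C.γ t0⟫ = 0) (t : ℝ) :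
    2 * lfs C.carrier (C.γ t0) * ⟪C.γ t - C.γ t0, n⟫ ≤ ‖C.γ t - C.γ t0‖ ^ 2 := by
  set ρ := lfs C.carrier (C.γ t0) with hρ
  have hρ0 : 0 ≤ ρ := lfs_nonneg C _
  have h1 : ρ ≤ dist (C.γ t0 + ρ • n) (C.γ t) := by
    by_contra h
    push Not at h
    obtain ⟨s, hs, hs', hm⟩ := exists_medial_normal C hn horth hρ0 ⟨t, h⟩
    have h2 := lfs_le_of_closure C (x := C.γ t0) hm
    have h3 : dist (C.γ t0) (C.γ t0 + s • n) = s := by
      rw [dist_comm, dist_eq_norm, add_sub_cancel_left, norm_smul, hn, mul_one,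
        Real.norm_of_nonneg hs]
    rw [h3, ← hρ] at h2
    linarith
  rw [dist_comm, dist_eq_norm] at h1
  have h2 : C.γ t - (C.γ t0 + ρ • n) = (C.γ t - C.γ t0) - ρ • n := by abel
  rw [h2] at h1
  have h3 : ρ ^ 2 ≤ ‖(C.γ t - C.γ t0) - ρ • n‖ ^ 2 := by gcongr
  rw [norm_sub_sq_real, inner_smul_right, norm_smul, hn, mul_one, Real.norm_eq_abs, sq_abs] at h3
  nlinarith

/-- no critical points of the distance from `x` within distance `lfs x` -/
lemma no_crit {sx t0 : ℝ} (hne : C.γ t0 ≠ C.γ sx)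
    (hd : dist (C.γ sx) (C.γ t0) < lfs C.carrier (C.γ sx)) :
    ⟪C.γ t0 - C.γ sx, deriv C.γ t0⟫ ≠ 0 := by
  intro hcrit
  set x := C.γ sx with hx
  set y := C.γ t0 with hy
  have hpos : 0 < ‖x - y‖ := norm_pos_iff.mpr (sub_ne_zero.mpr hne.symm)
  set n : Pt := (‖x - y‖⁻¹) • (x - y) with hn
  have hn1 : ‖n‖ = 1 := by
    rw [hn, norm_smul, norm_inv, norm_norm, inv_mul_cancel₀ hpos.ne']
  have horth : ⟪n, deriv C.γ t0⟫ = 0 := by
    rw [hn, inner_smul_left]
    have : ⟪x - y, deriv C.γ t0⟫ = - ⟪y - x, deriv C.γ t0⟫ := by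
      rw [← inner_neg_left, neg_sub]
    rw [this, hcrit]; simp
  have hxn : y + ‖x - y‖ • n = x := by
    rw [hn, smul_smul, mul_inv_cancel₀ hpos.ne', one_smul]; abel
  obtain ⟨s, hs, hs', hm⟩ := exists_medial_normal C hn1 horth hpos.le
    ⟨sx, by rw [← hy, hxn, ← hx, dist_self]; exact hpos⟩
  have h2 := lfs_le_of_closure C (x := x) hm
  have h3 : dist x (y + s • n) = ‖x - y‖ - s := by
    conv_lhs => rw [← hxn]
    rw [dist_add_left, dist_eq_norm, ← sub_smul, norm_smul, hn1, mul_one,
      Real.norm_of_nonneg (by linarith)]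
  rw [← hy, h3] at h2
  rw [dist_eq_norm] at hd
  linarith

end Pool.Agent.H660R2.Curve
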