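import Pool.Agent.H660R2.CurveA

/-!
# Curve reconstruction: local arcs
-/

namespace Pool.Agent.H660R2.Curve

open Set Filter Topology
open scoped RealInnerProductSpace

variable (C : ClosedCurve)

/-- the reversed curve -/
def rev : ClosedCurve where
  γ t := C.γ (-t)
  smooth := C.smooth.comp contDiff_neg
  regular t := by
    rw [deriv_comp_neg]
    exact neg_ne_zero.mpr (C.regular _)
  periodic t := by
    have := C.periodic (-(t + 1))
    rw [← this]
    congr 1
    ring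
  simple s t h := by
    obtain ⟨n, hn⟩ := C.simple _ _ h
    refine ⟨-n, ?_⟩
    push_cast
    linarith

@[simp] lemma rev_γ (t : ℝ) : (rev C).γ t = C.γ (-t) := rfl

@[simp] lemma rev_carrier : (rev C).carrier = C.carrier := by
  ext p
  constructor
  · rintro ⟨t, rfl⟩; exact ⟨-t, rfl⟩
  · rintro ⟨t, rfl⟩; exact ⟨-t, by simp⟩

lemma rev_deriv (t : ℝ) : deriv (rev C).γ t = - deriv C.γ (-t) := by
  show deriv (fun t => C.γ (-t)) t = _
  rw [deriv_comp_neg]

lemma rev_sample {ε : ℝ} {S : Finset Pt} (h : IsSample ε C S) : IsSample ε (rev C) S := by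
  unfold IsSample at h ⊢
  rw [rev_carrier]
  exact h

/-- the distance to `γ τ` is increasing along the local arc starting at `γ τ` -/
lemma arc_mono {τ t1 t2 : ℝ} (h1 : τ ≤ t1) (h2 : t1 < t2) (h3 : t2 < τ + 1)
    (hlt : ∀ t, τ < t → t ≤ t2 → dist (C.γ τ) (C.γ t) < lfs C.carrier (C.γ τ)) :
    dist (C.γ τ) (C.γ t1) < dist (C.γ τ) (C.γ t2) := by
  have hcrit : ∀ t, τ < t → t ≤ t2 → ⟪C.γ t - C.γ τ, deriv C.γ t⟫ ≠ 0 := fun t h4 h5 =>
    no_crit C (sx := τ) (t0 := t) (inj_lt C h4 (by linarith)).symm (hlt t h4 h5)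
  set φ : ℝ → ℝ := fun t => ‖C.γ t - C.γ τ‖ ^ 2 with hφ
  have hφc : Continuous φ := ((cont C).sub continuous_const).norm.pow 2
  have hlocmax : ∀ t, τ < t → t < t2 → ¬ (∀ t' ∈ Icc τ t2, φ t' ≤ φ t) := by
    intro t h4 h5 hmax
    have hl : IsLocalMax φ t := by
      filter_upwards [Icc_mem_nhds h4 h5] with t' ht'
      exact hmax t' ht'
    have h0 := hl.hasDerivAt_eq_zero (hasDeriv_sq C (C.γ τ) t)
    exact hcrit t h4 h5.le (by linarith)
  obtain ⟨tm, htm, hmax⟩ := isCompact_Icc.exists_isMaxOn (s := Icc τ t2)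
    ⟨τ, by constructor <;> linarith⟩ hφc.continuousOn
  have hmax' : ∀ t' ∈ Icc τ t2, φ t' ≤ φ tm := fun t' ht' => hmax ht'
  have hpos : 0 < φ t2 := by
    have : C.γ τ ≠ C.γ t2 := inj_lt C (by linarith) h3
    have := norm_pos_iff.mpr (sub_ne_zero.mpr this.symm)
    show 0 < ‖C.γ t2 - C.γ τ‖ ^ 2
    positivity
  have htm2 : tm = t2 := by
    rcases eq_or_lt_of_le htm.1 with h | h
    · have h4 := hmax' t2 ⟨by linarith, le_rfl⟩
      rw [← h] at h4
      have : φ τ = 0 := by simp [hφ]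
      linarith
    · rcases eq_or_lt_of_le htm.2 with h' | h'
      · exact h'
      · exact absurd hmax' (hlocmax tm h h')
  rw [htm2] at hmax'
  have h4 : φ t1 < φ t2 := by
    refine lt_of_le_of_ne (hmax' t1 ⟨h1, h2.le⟩) fun heq => ?_
    rcases eq_or_lt_of_le h1 with h | h
    · rw [← h] at heq
      have : φ τ = 0 := by simp [hφ]
      linarith
    · exact hlocmax t1 h h2 (by rw [heq]; exact hmax')
  rw [dist_comm, dist_comm (C.γ τ), dist_eq_norm, dist_eq_norm]
  exact lt_of_pow_lt_pow_left₀ 2 (norm_nonneg _) h4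

/-- a point of the curve within the local feature size of `γ τ` is on the local arc, on one of the
two sides -/
lemma arc_dichotomy {τ t : ℝ} (h1 : τ < t) (h2 : t < τ + 1)
    (hd : dist (C.γ τ) (C.γ t) < lfs C.carrier (C.γ τ)) :
    (∀ t', τ < t' → t' ≤ t → dist (C.γ τ) (C.γ t') < lfs C.carrier (C.γ τ)) ∨
    (∀ t', t ≤ t' → t' < τ + 1 → dist (C.γ τ) (C.γ t') < lfs C.carrier (C.γ τ)) := by
  by_contra hcon
  push Not at hcon
  obtain ⟨⟨t1, h3, h4, h5⟩, t2, h6, h7, h8⟩ := hcon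
  set φ : ℝ → ℝ := fun t => ‖C.γ t - C.γ τ‖ ^ 2 with hφ
  have hφc : Continuous φ := ((cont C).sub continuous_const).norm.pow 2
  obtain ⟨tm, htm, hmin⟩ := isCompact_Icc.exists_isMinOn (s := Icc t1 t2)
    ⟨t1, by constructor <;> linarith⟩ hφc.continuousOn
  have hmin' : ∀ t' ∈ Icc t1 t2, φ tm ≤ φ t' := fun t' ht' => hmin ht'
  have hφd : ∀ t, φ t = dist (C.γ τ) (C.γ t) ^ 2 := by
    intro t
    rw [dist_comm, dist_eq_norm]
  have hρ := lfs_nonneg C (C.γ τ)
  have h9 : dist (C.γ τ) (C.γ tm) < lfs C.carrier (C.γ τ) := by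
    have h10 := hmin' t ⟨h4, h6⟩
    rw [hφd, hφd] at h10
    exact lt_of_le_of_lt (le_of_sq_le_sq h10 dist_nonneg) hd
  have h11 : t1 < tm := by
    rcases eq_or_lt_of_le htm.1 with h | h
    · rw [← h] at h9; exact absurd h9 (not_lt.mpr h5)
    · exact h
  have h12 : tm < t2 := by
    rcases eq_or_lt_of_le htm.2 with h | h
    · rw [h] at h9; exact absurd h9 (not_lt.mpr h8)
    · exact h
  have hl : IsLocalMin φ tm := by
    filter_upwards [Icc_mem_nhds h11 h12] with t' ht'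
    exact hmin' t' ht'
  have h0 := hl.hasDerivAt_eq_zero (hasDeriv_sq C (C.γ τ) tm)
  exact no_crit C (sx := τ) (t0 := tm) (inj_lt C (by linarith) (by linarith)).symm h9 (by linarith)

/-- the curve stays in front of the normal line at `γ t0` as long as it stays within distance
`2 lfs` -/
lemma sign_right {t0 t1 : ℝ} (h1 : t0 < t1) (h2 : t1 < t0 + 1)
    (hlt : ∀ t, t0 < t → t ≤ t1 → dist (C.γ t0) (C.γ t) < 2 * lfs C.carrier (C.γ t0)) :
    0 < ⟪C.γ t1 - C.γ t0, deriv C.γ t0⟫ := by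
  obtain ⟨η, hη, hη2, hpos, -⟩ := eventually_sign C t0
  have hne : ∀ t, t0 < t → t ≤ t1 → ⟪C.γ t - C.γ t0, deriv C.γ t0⟫ ≠ 0 := by
    intro t h3 h4 h0
    have h5 : C.γ t - C.γ t0 ≠ 0 := sub_ne_zero.mpr (inj_lt C h3 (by linarith)).symm
    have h6 : 0 < ‖C.γ t - C.γ t0‖ := norm_pos_iff.mpr h5
    have h7 := tangent_disk C (t0 := t0) (n := (‖C.γ t - C.γ t0‖⁻¹) • (C.γ t - C.γ t0))
      (by rw [norm_smul, norm_inv, norm_norm, inv_mul_cancel₀ h6.ne'])
      (by rw [inner_smul_left, h0]; simp) t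
    rw [inner_smul_right, real_inner_self_eq_norm_sq] at h7
    have h8 : ‖C.γ t - C.γ t0‖⁻¹ * ‖C.γ t - C.γ t0‖ ^ 2 = ‖C.γ t - C.γ t0‖ := by
      field_simp
    rw [h8] at h7
    have h9 := hlt t h3 h4
    rw [dist_comm, dist_eq_norm] at h9
    nlinarith
  by_contra hcon
  push Not at hcon
  set t2 := min t1 (t0 + η) with ht2
  have h3 : t0 < t2 := lt_min h1 (by linarith)
  have h4 : t2 ≤ t1 := min_le_left _ _
  have h5 : 0 < ⟪C.γ t2 - C.γ t0, deriv C.γ t0⟫ := hpos t2 h3 (min_le_right _ _)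
  have hc : ContinuousOn (fun t => ⟪C.γ t - C.γ t0, deriv C.γ t0⟫) (Icc t2 t1) := by
    apply Continuous.continuousOn
    exact ((cont C).sub continuous_const).inner continuous_const
  obtain ⟨t, ht, ht0⟩ := intermediate_value_Icc' h4 hc ⟨hcon, h5.le⟩
  exact hne t (lt_of_lt_of_le h3 ht.1) ht.2 ht0

/-- If both arcs between two points of the curve leave the closed disk with these two points as
diameter, then the segment between them meets the medial axis. -/
lemma segment_medial {s t τ1 τ2 : ℝ} (h1 : s < τ1) (h2 : τ1 < t) (h3 : t < τ2) (h4 : τ2 < s + 1)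
    (hd1 : 0 < ⟪C.γ s - C.γ τ1, C.γ t - C.γ τ1⟫) (hd2 : 0 < ⟪C.γ s - C.γ τ2, C.γ t - C.γ τ2⟫) :
    ∃ m ∈ medialAxis C.carrier, m ∈ segment ℝ (C.γ s) (C.γ t) := by
  set K1 : Set Pt := C.γ '' Icc (τ2 - 1) τ1 with hK1
  set K2 : Set Pt := C.γ '' Icc τ1 τ2 with hK2
  have hK1c : IsCompact K1 := isCompact_Icc.image (cont C)
  have hK2c : IsCompact K2 := isCompact_Icc.image (cont C)
  have hp1 : C.γ s ∈ K1 := ⟨s, by constructor <;> linarith, rfl⟩
  have hr2 : C.γ t ∈ K2 := ⟨t, by constructor <;> linarith, rfl⟩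
  have hF1 : IsClosed {z : Pt | Metric.infDist z K1 ≤ Metric.infDist z K2} :=
    isClosed_le (Metric.continuous_infDist_pt _) (Metric.continuous_infDist_pt _)
  have hF2 : IsClosed {z : Pt | Metric.infDist z K2 ≤ Metric.infDist z K1} :=
    isClosed_le (Metric.continuous_infDist_pt _) (Metric.continuous_infDist_pt _)
  obtain ⟨z, hz, hz1, hz2⟩ := isPreconnected_closed_iff.mp
    (convex_segment (𝕜 := ℝ) (C.γ s) (C.γ t)).isPreconnected _ _ hF1 hF2
    (fun z _ => (le_total (Metric.infDist z K1) (Metric.infDist z K2)).elim Or.inl Or.inr)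
    ⟨C.γ s, left_mem_segment _ _ _, by
      show Metric.infDist (C.γ s) K1 ≤ Metric.infDist (C.γ s) K2
      rw [Metric.infDist_zero_of_mem hp1]; exact Metric.infDist_nonneg⟩
    ⟨C.γ t, right_mem_segment _ _ _, by
      show Metric.infDist (C.γ t) K2 ≤ Metric.infDist (C.γ t) K1
      rw [Metric.infDist_zero_of_mem hr2]; exact Metric.infDist_nonneg⟩
  have heq : Metric.infDist z K1 = Metric.infDist z K2 := le_antisymm hz1 hz2
  obtain ⟨a, ha1, ha⟩ := hK1c.exists_infDist_eq_dist ⟨_, hp1⟩ z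
  obtain ⟨b, hb2, hb⟩ := hK2c.exists_infDist_eq_dist ⟨_, hr2⟩ z
  have hab : dist z a = dist z b := by rw [← ha, ← hb, heq]
  have hall : ∀ c ∈ C.carrier, dist z a ≤ dist z c := by
    intro c hc
    obtain ⟨t', h5, h6, h7⟩ := exists_param C (τ2 - 1) hc
    rw [← h7]
    rcases le_or_gt t' τ1 with h8 | h8
    · rw [← ha]; exact Metric.infDist_le_dist_of_mem ⟨t', ⟨h5, h8⟩, rfl⟩
    · rw [hab, ← hb]; exact Metric.infDist_le_dist_of_mem ⟨t', ⟨h8.le, by linarith⟩, rfl⟩
  refine ⟨z, ?_, hz⟩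
  -- nearest points lie in the disk
  have hdisk : ∀ w, dist z w = dist z a → ⟪C.γ s - w, C.γ t - w⟫ ≤ 0 := by
    intro w hw
    have h5 : dist z w ≤ dist z (C.γ s) := by rw [hw]; exact hall _ (mem_carrier C s)
    have h6 : dist z w ≤ dist z (C.γ t) := by rw [hw]; exact hall _ (mem_carrier C t)
    obtain ⟨α, β, hα, hβ, hαβ, rfl⟩ := hz
    set p := C.γ s with hp
    set r := C.γ t with hr
    have hα' : α = 1 - β := by linarith
    subst hα'
    set z := (1 - β) • p + β • r with hzz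
    have e1 : p - w = β • (p - r) + (z - w) := by rw [hzz]; module
    have e2 : r - w = -((1 - β) • (p - r)) + (z - w) := by rw [hzz]; module
    have e3 : z - p = -(β • (p - r)) := by rw [hzz]; module
    have e4 : z - r = (1 - β) • (p - r) := by rw [hzz]; module
    set v := p - r with hv
    set d := z - w with hd
    have n1 : dist z w = ‖d‖ := by rw [dist_eq_norm]
    have n2 : dist z p = β * ‖v‖ := by
      rw [dist_eq_norm, e3, norm_neg, norm_smul, Real.norm_of_nonneg hβ]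
    have n3 : dist z r = (1 - β) * ‖v‖ := by
      rw [dist_eq_norm, e4, norm_smul, Real.norm_of_nonneg hα]
    rw [n1, n2] at h5
    rw [n1, n3] at h6
    rw [e1, e2]
    rw [inner_add_left, inner_add_right, inner_add_right, inner_neg_right, inner_neg_right,
      inner_smul_left, inner_smul_right, inner_smul_left, inner_smul_right,
      real_inner_self_eq_norm_sq, real_inner_self_eq_norm_sq, real_inner_comm v d]
    simp only [conj_trivial]
    have hcs := abs_real_inner_le_norm v d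
    have hcs1 : ⟪v, d⟫ ≤ ‖v‖ * ‖d‖ := (le_abs_self _).trans hcs
    have hcs2 : -(‖v‖ * ‖d‖) ≤ ⟪v, d⟫ := (abs_le.mp hcs).1
    have hv0 := norm_nonneg v
    have hd0 := norm_nonneg d
    rw [real_inner_comm d v] at *
    rcases le_total β (1 / 2) with hb | hb
    · nlinarith [mul_nonneg (sub_nonneg.mpr h5) hd0, mul_nonneg (sub_nonneg.mpr h5) hv0,
        mul_nonneg (sub_nonneg.mpr hcs1) (by linarith : (0:ℝ) ≤ 1 - 2 * β),
        mul_nonneg (mul_nonneg (sub_nonneg.mpr h5) hv0) (by linarith : (0:ℝ) ≤ 1 - 2 * β),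
        mul_nonneg (mul_nonneg (sub_nonneg.mpr h5) hv0) hβ,
        mul_nonneg (sub_nonneg.mpr h5) (by positivity : 0 ≤ β * ‖v‖)]
    · nlinarith [mul_nonneg (sub_nonneg.mpr h6) hd0, mul_nonneg (sub_nonneg.mpr h6) hv0,
        mul_nonneg (by linarith : (0:ℝ) ≤ ⟪d, v⟫ + ‖v‖ * ‖d‖) (by linarith : (0:ℝ) ≤ 2 * β - 1),
        mul_nonneg (mul_nonneg (sub_nonneg.mpr h6) hv0) (by linarith : (0:ℝ) ≤ 2 * β - 1),
        mul_nonneg (mul_nonneg (sub_nonneg.mpr h6) hv0) hα,
        mul_nonneg (sub_nonneg.mpr h6) (by positivity : 0 ≤ (1 - β) * ‖v‖)]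
  have hne : a ≠ b := by
    intro hab'
    obtain ⟨ta, hta, hta'⟩ := ha1
    obtain ⟨tb, htb, htb'⟩ := hb2
    have h5 : C.γ ta = C.γ tb := by rw [hta', htb', hab']
    have h6 : ta ≤ tb := hta.2.trans htb.1
    rcases eq_or_lt_of_le h6 with h7 | h7
    · have h8 : ta = τ1 := le_antisymm hta.2 (by rw [h7]; exact htb.1)
      have h9 := hdisk a rfl
      rw [← hta', h8] at h9
      linarith
    · rcases lt_or_ge tb (ta + 1) with h8 | h8
      · exact inj_lt C h7 h8 h5
      · have h9 : tb = τ2 := le_antisymm htb.2 (by linarith [hta.1])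
        have h10 := hdisk b hab.symm
        rw [← htb', h9] at h10
        linarith
  have hpos : 0 < dist z a := by
    rcases (dist_nonneg (x := z) (y := a)).eq_or_lt with h | h
    · exfalso
      apply hne
      rw [← dist_eq_zero.mp h.symm]
      rw [← h] at hab
      exact dist_eq_zero.mp hab.symm
    · exact h
  refine ⟨dist z a, hpos, hall, a, ?_, b, ?_, hne, rfl, hab.symm⟩
  · obtain ⟨t', -, rfl⟩ := ha1; exact mem_carrier C t'
  · obtain ⟨t', -, rfl⟩ := hb2; exact mem_carrier C t'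

end Pool.Agent.H660R2.Curve
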