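import Pool.Agent.H660R2.CurveB

/-!
# Curve reconstruction: geometry of one edge of the polygon
-/

set_option linter.unusedVariables false

namespace Pool.Agent.H660R2.Curve

open Set Filter Topology
open scoped RealInnerProductSpace

variable (C : ClosedCurve)

lemma inner_coord (v w : Pt) : ⟪v, w⟫ = v 0 * w 0 + v 1 * w 1 := by
  simp [PiLp.inner_apply, Fin.sum_univ_two]
  ring

lemma exists_frame {D : Pt} (hD : D ≠ 0) : ∃ T n : Pt, ‖T‖ = 1 ∧ ‖n‖ = 1 ∧ ⟪n, D⟫ = 0 ∧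
    D = ‖D‖ • T ∧ ∀ v w : Pt, ⟪v, w⟫ = ⟪v, T⟫ * ⟪w, T⟫ + ⟪v, n⟫ * ⟪w, n⟫ := by
  have hDpos : 0 < ‖D‖ := norm_pos_iff.mpr hD
  set T : Pt := (‖D‖⁻¹) • D with hT
  have hT1 : ‖T‖ = 1 := by rw [hT, norm_smul, norm_inv, norm_norm, inv_mul_cancel₀ hDpos.ne']
  have hTT : T 0 * T 0 + T 1 * T 1 = 1 := by
    rw [← inner_coord, real_inner_self_eq_norm_sq, hT1]; norm_num
  have hDT : D = ‖D‖ • T := by rw [hT, smul_smul, mul_inv_cancel₀ hDpos.ne', one_smul]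
  refine ⟨T, !₂[-(T 1), T 0], hT1, ?_, ?_, hDT, ?_⟩
  · have : ‖(!₂[-(T 1), T 0] : Pt)‖ ^ 2 = 1 := by
      rw [← real_inner_self_eq_norm_sq, inner_coord]
      simp
      linarith
    have h0 := norm_nonneg (!₂[-(T 1), T 0] : Pt)
    nlinarith
  · rw [hDT, inner_smul_right, inner_coord]
    simp
    right
    ring
  · intro v w
    simp only [inner_coord]
    simp
    linear_combination (-(v 0 * w 0) - v 1 * w 1) * hTT

/-- The angle between `v` and `D` is less than `45°`. -/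
def W45 (v D : Pt) : Prop := 0 < ⟪v, D⟫ ∧ ‖v‖ ^ 2 * ‖D‖ ^ 2 < 2 * ⟪v, D⟫ ^ 2

lemma W45_frame {D T n : Pt} (hD : D ≠ 0) (hDT : D = ‖D‖ • T)
    (hfr : ∀ v w : Pt, ⟪v, w⟫ = ⟪v, T⟫ * ⟪w, T⟫ + ⟪v, n⟫ * ⟪w, n⟫) (v : Pt) :
    W45 v D ↔ |⟪v, n⟫| < ⟪v, T⟫ := by
  have hDpos : 0 < ‖D‖ := norm_pos_iff.mpr hD
  unfold W45
  have h1 : ⟪v, D⟫ = ‖D‖ * ⟪v, T⟫ := by
    conv_lhs => rw [hDT]
    rw [inner_smul_right]
  have h2 : ‖v‖ ^ 2 = ⟪v, T⟫ ^ 2 + ⟪v, n⟫ ^ 2 := by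
    rw [← real_inner_self_eq_norm_sq, hfr]; ring
  rw [h1, h2]
  constructor
  · rintro ⟨h3, h4⟩
    have h5 : 0 < ⟪v, T⟫ := by
      by_contra hcon
      push Not at hcon
      have := mul_nonpos_of_nonneg_of_nonpos hDpos.le hcon
      linarith
    apply abs_lt_of_sq_lt_sq _ h5.le
    have h6 : ‖D‖ ^ 2 * ⟪v, n⟫ ^ 2 < ‖D‖ ^ 2 * ⟪v, T⟫ ^ 2 := by nlinarith
    exact lt_of_mul_lt_mul_left h6 (by positivity)
  · intro h3
    have h5 : 0 < ⟪v, T⟫ := lt_of_le_of_lt (abs_nonneg _) h3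
    refine ⟨mul_pos hDpos h5, ?_⟩
    have h4 : ⟪v, n⟫ ^ 2 < ⟪v, T⟫ ^ 2 := sq_lt_sq' (by linarith [(abs_lt.mp h3).1]) (abs_lt.mp h3).2
    have h6 : ‖D‖ ^ 2 * ⟪v, n⟫ ^ 2 < ‖D‖ ^ 2 * ⟪v, T⟫ ^ 2 :=
      mul_lt_mul_of_pos_left h4 (by positivity)
    nlinarith

lemma W45_frame_neg {D T n : Pt} (hD : D ≠ 0) (hDT : D = ‖D‖ • T)
    (hfr : ∀ v w : Pt, ⟪v, w⟫ = ⟪v, T⟫ * ⟪w, T⟫ + ⟪v, n⟫ * ⟪w, n⟫) (v : Pt) :
    W45 v (-D) ↔ |⟪v, n⟫| < -⟪v, T⟫ := by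
  have h := W45_frame (D := -D) (T := -T) (n := n) (neg_ne_zero.mpr hD)
    (by rw [norm_neg, smul_neg, ← hDT]) (by
      intro v w
      rw [hfr v w]; simp) v
  rw [h]
  simp

lemma W45_pos {D b c : Pt} (hD : D ≠ 0) (hb : W45 b D) (hc : W45 c D) : 0 < ⟪b, c⟫ := by
  obtain ⟨T, n, -, -, -, hDT, hfr⟩ := exists_frame hD
  rw [W45_frame hD hDT hfr] at hb hc
  rw [hfr]
  have h1 := abs_lt.mp hb
  have h2 := abs_lt.mp hc
  nlinarith [mul_pos (sub_pos.mpr h1.2) (sub_pos.mpr h2.2),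
    mul_pos (sub_pos.mpr h1.2) (sub_pos.mpr h2.1), mul_pos (sub_pos.mpr h1.1) (sub_pos.mpr h2.2),
    mul_pos (sub_pos.mpr h1.1) (sub_pos.mpr h2.1)]

lemma W45_neg {D b c : Pt} (hD : D ≠ 0) (hb : W45 b (-D)) (hc : W45 c D) : ⟪b, c⟫ < 0 := by
  have h : W45 (-b) D := by
    unfold W45 at hb ⊢
    rw [inner_neg_right] at hb
    rw [inner_neg_left, norm_neg]
    rw [norm_neg] at hb
    exact hb
  have := W45_pos hD h hc
  rw [inner_neg_left] at this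
  linarith

lemma W45_absurd {D e : Pt} (h1 : W45 e D) (h2 : W45 e (-D)) : False := by
  have h3 := h1.1
  have h4 := h2.1
  rw [inner_neg_right] at h4
  linarith

lemma sign_left {t0 t1 : ℝ} (h1 : t1 < t0) (h2 : t0 - 1 < t1)
    (hlt : ∀ t, t1 ≤ t → t < t0 → dist (C.γ t0) (C.γ t) < 2 * lfs C.carrier (C.γ t0)) :
    ⟪C.γ t1 - C.γ t0, deriv C.γ t0⟫ < 0 := by
  have h := sign_right (rev C) (t0 := -t0) (t1 := -t1) (by linarith) (by linarith) (by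
    intro t h3 h4
    have := hlt (-t) (by linarith) (by linarith)
    simpa using this)
  rw [rev_deriv] at h
  simp only [rev_γ, neg_neg, inner_neg_right] at h
  linarith

lemma arc_mono_left {τ t1 t2 : ℝ} (h1 : t1 < t2) (h2 : t2 ≤ τ) (h3 : τ - 1 < t1)
    (hlt : ∀ t, t1 ≤ t → t < τ → dist (C.γ τ) (C.γ t) < lfs C.carrier (C.γ τ)) :
    dist (C.γ τ) (C.γ t2) < dist (C.γ τ) (C.γ t1) := by
  have h := arc_mono (rev C) (τ := -τ) (t1 := -t2) (t2 := -t1) (by linarith) (by linarith)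
    (by linarith) (by
      intro t h4 h5
      have := hlt (-t) (by linarith) (by linarith)
      simpa using this)
  simpa using h

lemma tangent_abs {t0 : ℝ} {n : Pt} (hn : ‖n‖ = 1) (horth : ⟪n, deriv C.γ t0⟫ = 0) (t : ℝ) :
    2 * lfs C.carrier (C.γ t0) * |⟪C.γ t - C.γ t0, n⟫| ≤ ‖C.γ t - C.γ t0‖ ^ 2 := by
  have h1 := tangent_disk C hn horth t
  have h2 := tangent_disk C (n := -n) (by rw [norm_neg, hn]) (by rw [inner_neg_left, horth]; simp) t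
  rw [inner_neg_right] at h2
  rcases abs_cases ⟪C.γ t - C.γ t0, n⟫ with ⟨h, -⟩ | ⟨h, -⟩ <;> rw [h]
  · exact h1
  · exact h2

/-- Data of an edge: `γ τ` is the centre of the arc from `γ s` to `γ t`. -/
structure EdgeData (s τ t : ℝ) : Prop where
  h1 : s < τ
  h2 : τ < t
  h3 : t < s + 1
  heq : dist (C.γ τ) (C.γ s) = dist (C.γ τ) (C.γ t)
  hle : dist (C.γ τ) (C.γ t) ≤ (251 / 500) * lfs C.carrier (C.γ τ)
  hR : ∀ t', τ < t' → t' ≤ t → dist (C.γ τ) (C.γ t') < lfs C.carrier (C.γ τ)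
  hL : ∀ t', s ≤ t' → t' < τ → dist (C.γ τ) (C.γ t') < lfs C.carrier (C.γ τ)

variable {C}

lemma EdgeData.rev {s τ t : ℝ} (h : EdgeData C s τ t) : EdgeData (rev C) (-t) (-τ) (-s) where
  h1 := by have := h.h2; linarith
  h2 := by have := h.h1; linarith
  h3 := by have := h.h3; linarith
  heq := by simpa using h.heq.symm
  hle := by
    have h4 := h.hle
    have h5 := h.heq
    simp only [rev_γ, neg_neg, rev_carrier]
    rw [h5]; exact h4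
  hR := by
    intro t' h4 h5
    have := h.hL (-t') (by linarith) (by linarith)
    simpa using this
  hL := by
    intro t' h4 h5
    have := h.hR (-t') (by linarith) (by linarith)
    simpa using this

lemma EdgeData.hpos {s τ t : ℝ} (h : EdgeData C s τ t) : 0 < dist (C.γ τ) (C.γ t) :=
  dist_pos.mpr (inj_lt C h.h2 (by have := h.h1; have := h.h3; linarith))

lemma EdgeData.rho {s τ t : ℝ} (h : EdgeData C s τ t) :
    500 / 251 * dist (C.γ τ) (C.γ t) ≤ lfs C.carrier (C.γ τ) := by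
  have := h.hle
  linarith

lemma EdgeData.rho_left {s τ t : ℝ} (h : EdgeData C s τ t) :
    249 / 251 * dist (C.γ τ) (C.γ t) ≤ lfs C.carrier (C.γ s) := by
  have h1 := h.rho
  have h2 := lfs_lip C (C.γ τ) (C.γ s)
  rw [h.heq] at h2
  linarith

/-- a vector with small second component has a large first component -/
lemma alg_big {a A1 A2 : ℝ} (ha : 0 ≤ a) (hA : A1 ^ 2 + A2 ^ 2 = a ^ 2) (h2 : |A2| ≤ a / 3)
    (h1 : A1 ≤ 0) : 94 / 100 * a ≤ -A1 := by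
  have h3 : A2 ^ 2 ≤ (a / 3) ^ 2 := by
    rw [← sq_abs A2]; gcongr
  nlinarith

lemma alg_dot {a b A1 A2 B1 B2 : ℝ} (ha : 0 ≤ a) (hb : 0 ≤ b) (hA : A1 ^ 2 + A2 ^ 2 = a ^ 2)
    (hB : B1 ^ 2 + B2 ^ 2 = b ^ 2) (hA2 : |A2| ≤ a / 3) (hB2 : |B2| ≤ b / 3) (hA1 : A1 ≤ 0)
    (hB1 : B1 ≤ 0) : a * b / 2 ≤ A1 * B1 + A2 * B2 := by
  have h1 := alg_big ha hA hA2 hA1
  have h2 := alg_big hb hB hB2 hB1
  have h3 : (94 / 100 * a) * (94 / 100 * b) ≤ (-A1) * (-B1) := by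
    apply mul_le_mul h1 h2 (by positivity) (by linarith)
  have h4 : |A2 * B2| ≤ (a / 3) * (b / 3) := by
    rw [abs_mul]; apply mul_le_mul hA2 hB2 (abs_nonneg _) (by positivity)
  have h5 := (abs_le.mp h4).1
  nlinarith [mul_nonneg ha hb]

/-- flatness of the arc at its centre -/
lemma alg_flat {h P1 P2 Q1 Q2 : ℝ} (hh : 0 < h) (hP : P1 ^ 2 + P2 ^ 2 = h ^ 2)
    (hQ : Q1 ^ 2 + Q2 ^ 2 = h ^ 2) (hP2 : |P2| ≤ 251 / 1000 * h) (hQ2 : |Q2| ≤ 251 / 1000 * h)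
    (hP1 : P1 < 0) (hQ1 : 0 < Q1) :
    P1 * Q1 + P2 * Q2 ≤ -(1 - 2 * (251 / 1000) ^ 2) * h ^ 2 := by
  have h1 : P2 ^ 2 ≤ (251 / 1000 * h) ^ 2 := by rw [← sq_abs P2]; gcongr
  have h2 : Q2 ^ 2 ≤ (251 / 1000 * h) ^ 2 := by rw [← sq_abs Q2]; gcongr
  have h3 : P2 * Q2 ≤ (251 / 1000) ^ 2 * h ^ 2 := by nlinarith [sq_nonneg (P2 - Q2)]
  have h4 : (1 - (251 / 1000) ^ 2) * h ^ 2 ≤ (-P1) * Q1 := by
    have h5 : (1 - (251 / 1000) ^ 2) * h ^ 2 ≤ P1 ^ 2 := by nlinarith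
    have h6 : (1 - (251 / 1000) ^ 2) * h ^ 2 ≤ Q1 ^ 2 := by nlinarith
    have h7 : 0 < (1 - (251 / 1000) ^ 2) * h ^ 2 := by positivity
    by_contra hcon
    push Not at hcon
    have h8 : ((-P1) * Q1) ^ 2 < ((1 - (251 / 1000) ^ 2) * h ^ 2) ^ 2 := by
      have : 0 ≤ (-P1) * Q1 := mul_nonneg (by linarith) hQ1.le
      gcongr
    have h9 : ((1 - (251 / 1000) ^ 2) * h ^ 2) ^ 2 ≤ P1 ^ 2 * Q1 ^ 2 := by
      rw [sq ((1 - (251 / 1000) ^ 2) * h ^ 2)]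
      apply mul_le_mul h5 h6 h7.le (sq_nonneg _)
    nlinarith
  nlinarith

lemma alg_tan {h X1 X2 : ℝ} (hh : 0 < h) (hX1 : 0 < X1) (hX : X1 ^ 2 + X2 ^ 2 = h ^ 2)
    (hX2 : |X2| ≤ 251 / 498 * h) : |X2| ≤ 5837 / 10000 * X1 := by
  have h1 : X2 ^ 2 ≤ (251 / 498 * h) ^ 2 := by rw [← sq_abs X2]; gcongr
  apply abs_le_of_sq_le_sq _ (by positivity)
  nlinarith

lemma alg_next {h X1 X2 c1 c2 : ℝ} (hh : 0 < h) (hX1 : 0 < X1) (hX : X1 ^ 2 + X2 ^ 2 = h ^ 2)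
    (hX2 : |X2| ≤ 251 / 498 * h) (hc : c1 ^ 2 + c2 ^ 2 = 2 * (X1 * c1 + X2 * c2))
    (hflat : (2 - 2 * (251 / 1000) ^ 2) * h ^ 2 ≤ X1 * c1 + X2 * c2) : |c2| < c1 := by
  have ht := alg_tan hh hX1 hX hX2
  set D := X1 * c1 + X2 * c2 with hD
  set K := X1 * c2 - X2 * c1 with hK
  have hDpos : 0 < D := lt_of_lt_of_le (by positivity) hflat
  have hK2 : K ^ 2 = 2 * h ^ 2 * D - D ^ 2 := by
    have : D ^ 2 + K ^ 2 = h ^ 2 * (c1 ^ 2 + c2 ^ 2) := by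
      rw [← hX, hD, hK]; ring
    rw [hc] at this
    linarith
  have hKle : |K| ≤ 2594 / 10000 * D := by
    apply abs_le_of_sq_le_sq _ (by positivity)
    rw [hK2]
    have h1 : 0 ≤ D * (D - (2 - 2 * (251 / 1000) ^ 2) * h ^ 2) :=
      mul_nonneg hDpos.le (by linarith)
    have h2 : 0 < D * h ^ 2 := by positivity
    nlinarith
  have e1 : c1 * h ^ 2 = X1 * D - X2 * K := by rw [← hX, hD, hK]; ring
  have e2 : c2 * h ^ 2 = X2 * D + X1 * K := by rw [← hX, hD, hK]; ring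
  have hXD : 0 < X1 * D := mul_pos hX1 hDpos
  have b1 : |X2 * K| ≤ (5837 / 10000 * X1) * (2594 / 10000 * D) := by
    rw [abs_mul]; exact mul_le_mul ht hKle (abs_nonneg _) (by positivity)
  have b2 : |X2 * D| ≤ (5837 / 10000 * X1) * D := by
    rw [abs_mul, abs_of_pos hDpos]; exact mul_le_mul_of_nonneg_right ht hDpos.le
  have b3 : |X1 * K| ≤ X1 * (2594 / 10000 * D) := by
    rw [abs_mul, abs_of_pos hX1]; exact mul_le_mul_of_nonneg_left hKle hX1.le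
  have hh2 : 0 < h ^ 2 := by positivity
  rw [abs_le] at b1 b2 b3
  have f1 : c2 * h ^ 2 < c1 * h ^ 2 := by rw [e1, e2]; nlinarith [b1.1, b1.2, b2.1, b2.2, b3.1, b3.2]
  have f2 : (-c2) * h ^ 2 < c1 * h ^ 2 := by
    have : (-c2) * h ^ 2 = - (c2 * h ^ 2) := by ring
    rw [this, e1, e2]; nlinarith [b1.1, b1.2, b2.1, b2.2, b3.1, b3.2]
  have g1 := lt_of_mul_lt_mul_right f1 hh2.le
  have g2 := lt_of_mul_lt_mul_right f2 hh2.le
  exact abs_lt.mpr ⟨by linarith, g1⟩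

lemma alg_medial {h a X1 X2 e1 e2 : ℝ} (hh : 0 < h) (ha : 0 < a) (hah : a ≤ h) (hX1 : 0 < X1)
    (hX : X1 ^ 2 + X2 ^ 2 = h ^ 2) (hX2 : |X2| ≤ 251 / 498 * h) (he : e1 ^ 2 + e2 ^ 2 = a ^ 2)
    (hfar : (500 / 251 * h) ^ 2 ≤ (X1 - e1) ^ 2 + (X2 - e2) ^ 2) : |e2| < -e1 := by
  have ht := alg_tan hh hX1 hX hX2
  set D := X1 * e1 + X2 * e2 with hD
  set K := X1 * e2 - X2 * e1 with hK
  have hD1 : 2 * D ≤ h ^ 2 + a ^ 2 - (500 / 251 * h) ^ 2 := by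
    have : (X1 - e1) ^ 2 + (X2 - e2) ^ 2 = h ^ 2 + a ^ 2 - 2 * D := by
      rw [← hX, ← he, hD]; ring
    linarith
  have hK2 : K ^ 2 = h ^ 2 * a ^ 2 - D ^ 2 := by
    have : D ^ 2 + K ^ 2 = h ^ 2 * a ^ 2 := by
      rw [← hX, ← he, hD, hK]; ring
    linarith
  -- D ≤ - c0 h a
  have hD2 : 984 / 1000 * (h * a) ≤ -D := by
    nlinarith [mul_nonneg (sub_nonneg.mpr hah) ha.le, mul_nonneg (sub_nonneg.mpr hah) hh.le,
      mul_pos hh ha]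
  have hDneg : D < 0 := by nlinarith [mul_pos hh ha]
  have hKle : |K| ≤ 1811 / 10000 * (-D) := by
    apply abs_le_of_sq_le_sq _ (by linarith)
    rw [hK2]
    have h1 : (984 / 1000 * (h * a)) ^ 2 ≤ (-D) ^ 2 := by
      have : 0 < h * a := mul_pos hh ha
      gcongr
    nlinarith
  have e1' : e1 * h ^ 2 = X1 * D - X2 * K := by rw [← hX, hD, hK]; ring
  have e2' : e2 * h ^ 2 = X2 * D + X1 * K := by rw [← hX, hD, hK]; ring
  have hXD : 0 < X1 * (-D) := mul_pos hX1 (by linarith)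
  have b1 : |X2 * K| ≤ (5837 / 10000 * X1) * (1811 / 10000 * (-D)) := by
    rw [abs_mul]; exact mul_le_mul ht hKle (abs_nonneg _) (by positivity)
  have b2 : |X2 * D| ≤ (5837 / 10000 * X1) * (-D) := by
    rw [abs_mul, abs_of_neg hDneg]; exact mul_le_mul_of_nonneg_right ht (by linarith)
  have b3 : |X1 * K| ≤ X1 * (1811 / 10000 * (-D)) := by
    rw [abs_mul, abs_of_pos hX1]; exact mul_le_mul_of_nonneg_left hKle hX1.le
  have hh2 : 0 < h ^ 2 := by positivity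
  rw [abs_le] at b1 b2 b3
  have f1 : e2 * h ^ 2 < (-e1) * h ^ 2 := by
    have : (-e1) * h ^ 2 = - (e1 * h ^ 2) := by ring
    rw [this, e1', e2']; nlinarith [b1.1, b1.2, b2.1, b2.2, b3.1, b3.2]
  have f2 : (-e2) * h ^ 2 < (-e1) * h ^ 2 := by
    have h1 : (-e2) * h ^ 2 = - (e2 * h ^ 2) := by ring
    have h2 : (-e1) * h ^ 2 = - (e1 * h ^ 2) := by ring
    rw [h1, h2, e1', e2']; nlinarith [b1.1, b1.2, b2.1, b2.2, b3.1, b3.2]
  have g1 := lt_of_mul_lt_mul_right f1 hh2.le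
  have g2 := lt_of_mul_lt_mul_right f2 hh2.le
  exact abs_lt.mpr ⟨by linarith, g1⟩

end Pool.Agent.H660R2.Curve
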