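import Pool.Agent.H660R2.CurveC

/-!
# Curve reconstruction: angles at the sample points
-/

set_option linter.unusedVariables false

namespace Pool.Agent.H660R2.Curve

open Set Filter Topology
open scoped RealInnerProductSpace

variable {C : ClosedCurve}

lemma frame_sq {T n : Pt}
    (hfr : ∀ v w : Pt, ⟪v, w⟫ = ⟪v, T⟫ * ⟪w, T⟫ + ⟪v, n⟫ * ⟪w, n⟫) (v : Pt) :
    ⟪v, T⟫ ^ 2 + ⟪v, n⟫ ^ 2 = ‖v‖ ^ 2 := by
  have := hfr v v
  rw [real_inner_self_eq_norm_sq] at this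
  rw [this]; ring

lemma norm_eq_dist' (p q : Pt) : ‖p - q‖ = dist q p := by rw [dist_comm, dist_eq_norm]

/-- frame components of a point on the left local arc of the centre -/
lemma EdgeData.left_comp {s τ t : ℝ} (h : EdgeData C s τ t) {T n : Pt} (hn : ‖n‖ = 1)
    (horth : ⟪n, deriv C.γ τ⟫ = 0) (hDT : deriv C.γ τ = ‖deriv C.γ τ‖ • T) {tp : ℝ}
    (h1 : τ - 1 < tp) (h2 : tp < τ)
    (hL : ∀ t', tp ≤ t' → t' < τ → dist (C.γ τ) (C.γ t') < lfs C.carrier (C.γ τ)) :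
    ⟪C.γ tp - C.γ τ, T⟫ < 0 ∧
    1000 / 251 * dist (C.γ τ) (C.γ t) * |⟪C.γ tp - C.γ τ, n⟫| ≤ ‖C.γ tp - C.γ τ‖ ^ 2 := by
  have hρ0 := lfs_nonneg C (C.γ τ)
  constructor
  · have h3 := sign_left C h2 h1 (by
      intro t' h4 h5
      have := hL t' h4 h5
      linarith)
    rw [hDT, inner_smul_right] at h3
    by_contra hcon
    push Not at hcon
    have := mul_nonneg (norm_nonneg (deriv C.γ τ)) hcon
    linarith
  · have h3 := tangent_abs C hn horth tp
    have h4 := h.rho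
    have h5 := abs_nonneg ⟪C.γ tp - C.γ τ, n⟫
    nlinarith

lemma EdgeData.right_comp {s τ t : ℝ} (h : EdgeData C s τ t) {T n : Pt} (hn : ‖n‖ = 1)
    (horth : ⟪n, deriv C.γ τ⟫ = 0) (hDT : deriv C.γ τ = ‖deriv C.γ τ‖ • T) :
    0 < ⟪C.γ t - C.γ τ, T⟫ ∧
    1000 / 251 * dist (C.γ τ) (C.γ t) * |⟪C.γ t - C.γ τ, n⟫| ≤ ‖C.γ t - C.γ τ‖ ^ 2 := by
  have hρ0 := lfs_nonneg C (C.γ τ)
  constructor
  · have h3 := sign_right C h.h2 (by have := h.h1; have := h.h3; linarith) (by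
      intro t' h4 h5
      have := h.hR t' h4 h5
      linarith)
    rw [hDT, inner_smul_right] at h3
    by_contra hcon
    push Not at hcon
    have := mul_nonpos_of_nonneg_of_nonpos (norm_nonneg (deriv C.γ τ)) hcon
    linarith
  · have h3 := tangent_abs C hn horth t
    have h4 := h.rho
    have h5 := abs_nonneg ⟪C.γ t - C.γ τ, n⟫
    nlinarith

/-- flatness at the centre -/
lemma EdgeData.flat {s τ t : ℝ} (h : EdgeData C s τ t) :
    ⟪C.γ s - C.γ τ, C.γ t - C.γ τ⟫ ≤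
      -(1 - 2 * (251 / 1000) ^ 2) * dist (C.γ τ) (C.γ t) ^ 2 := by
  obtain ⟨T, n, hT, hn, horth, hDT, hfr⟩ := exists_frame (C.regular τ)
  have h1 := h.left_comp hn horth hDT (tp := s) (by have := h.h2; have := h.h3; linarith) h.h1 h.hL
  have h2 := h.right_comp hn horth hDT
  have hh := h.hpos
  have hP : ⟪C.γ s - C.γ τ, T⟫ ^ 2 + ⟪C.γ s - C.γ τ, n⟫ ^ 2 = dist (C.γ τ) (C.γ t) ^ 2 := by
    rw [frame_sq hfr, norm_eq_dist', h.heq]
  have hQ : ⟪C.γ t - C.γ τ, T⟫ ^ 2 + ⟪C.γ t - C.γ τ, n⟫ ^ 2 = dist (C.γ τ) (C.γ t) ^ 2 := by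
    rw [frame_sq hfr, norm_eq_dist']
  rw [norm_eq_dist', h.heq] at h1
  rw [norm_eq_dist'] at h2
  have hP2 : |⟪C.γ s - C.γ τ, n⟫| ≤ 251 / 1000 * dist (C.γ τ) (C.γ t) := by
    have h3 := h1.2
    have : dist (C.γ τ) (C.γ t) * (1000 / 251 * |⟪C.γ s - C.γ τ, n⟫|) ≤
      dist (C.γ τ) (C.γ t) * dist (C.γ τ) (C.γ t) := by nlinarith
    have := le_of_mul_le_mul_left this hh
    linarith
  have hQ2 : |⟪C.γ t - C.γ τ, n⟫| ≤ 251 / 1000 * dist (C.γ τ) (C.γ t) := by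
    have h3 := h2.2
    have : dist (C.γ τ) (C.γ t) * (1000 / 251 * |⟪C.γ t - C.γ τ, n⟫|) ≤
      dist (C.γ τ) (C.γ t) * dist (C.γ τ) (C.γ t) := by nlinarith
    have := le_of_mul_le_mul_left this hh
    linarith
  rw [hfr]
  exact alg_flat hh hP hQ hP2 hQ2 h1.1 h2.1

/-- points on the left local arc of the centre are close to `γ s` -/
lemma EdgeData.left_dist {s τ t : ℝ} (h : EdgeData C s τ t) {tp : ℝ}
    (h1 : τ - 1 < tp) (h2 : tp < τ)
    (hL : ∀ t', tp ≤ t' → t' < τ → dist (C.γ τ) (C.γ t') < lfs C.carrier (C.γ τ))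
    (hd : dist (C.γ τ) (C.γ tp) ≤ 13 / 10 * dist (C.γ τ) (C.γ t)) :
    dist (C.γ s) (C.γ tp) ^ 2 ≤ dist (C.γ τ) (C.γ tp) ^ 2 + dist (C.γ τ) (C.γ t) ^ 2 -
      dist (C.γ τ) (C.γ tp) * dist (C.γ τ) (C.γ t) := by
  obtain ⟨T, n, hT, hn, horth, hDT, hfr⟩ := exists_frame (C.regular τ)
  have h3 := h.left_comp hn horth hDT (tp := s) (by have := h.h2; have := h.h3; linarith) h.h1 h.hL
  have h4 := h.left_comp hn horth hDT h1 h2 hL
  have hh := h.hpos
  have hP : ⟪C.γ s - C.γ τ, T⟫ ^ 2 + ⟪C.γ s - C.γ τ, n⟫ ^ 2 = dist (C.γ τ) (C.γ t) ^ 2 := by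
    rw [frame_sq hfr, norm_eq_dist', h.heq]
  have hQ : ⟪C.γ tp - C.γ τ, T⟫ ^ 2 + ⟪C.γ tp - C.γ τ, n⟫ ^ 2 = dist (C.γ τ) (C.γ tp) ^ 2 := by
    rw [frame_sq hfr, norm_eq_dist']
  rw [norm_eq_dist', h.heq] at h3
  rw [norm_eq_dist'] at h4
  have hP2 : |⟪C.γ s - C.γ τ, n⟫| ≤ dist (C.γ τ) (C.γ t) / 3 := by
    have h5 := h3.2
    have : dist (C.γ τ) (C.γ t) * (1000 / 251 * |⟪C.γ s - C.γ τ, n⟫|) ≤
      dist (C.γ τ) (C.γ t) * dist (C.γ τ) (C.γ t) := by nlinarith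
    have := le_of_mul_le_mul_left this hh
    have := abs_nonneg ⟪C.γ s - C.γ τ, n⟫
    linarith
  have hQ2 : |⟪C.γ tp - C.γ τ, n⟫| ≤ dist (C.γ τ) (C.γ tp) / 3 := by
    have h5 := h4.2
    have h6 : dist (C.γ τ) (C.γ t) * (1000 / 251 * |⟪C.γ tp - C.γ τ, n⟫|) ≤
      dist (C.γ τ) (C.γ t) * (13 / 10 * dist (C.γ τ) (C.γ tp)) := by
      have := dist_nonneg (x := C.γ τ) (y := C.γ tp)
      nlinarith
    have := le_of_mul_le_mul_left h6 hh
    have := abs_nonneg ⟪C.γ tp - C.γ τ, n⟫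
    linarith
  have hdot := alg_dot (dist_nonneg (x := C.γ τ) (y := C.γ tp)) hh.le hQ hP hQ2 hP2 h4.1.le h3.1.le
  rw [← hfr] at hdot
  have e1 : C.γ tp - C.γ s = (C.γ tp - C.γ τ) - (C.γ s - C.γ τ) := by abel
  have e2 : dist (C.γ s) (C.γ tp) ^ 2 = dist (C.γ τ) (C.γ tp) ^ 2 -
      2 * ⟪C.γ tp - C.γ τ, C.γ s - C.γ τ⟫ + dist (C.γ τ) (C.γ t) ^ 2 := by
    rw [← norm_eq_dist', e1, norm_sub_sq_real, norm_eq_dist', norm_eq_dist', h.heq]
  rw [e2]
  linarith

/-- components at the sample point `γ s` of the vector to the centre -/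
lemma EdgeData.centre_comp {s τ t : ℝ} (h : EdgeData C s τ t) {T n : Pt} (hn : ‖n‖ = 1)
    (horth : ⟪n, deriv C.γ s⟫ = 0) (hDT : deriv C.γ s = ‖deriv C.γ s‖ • T) :
    0 < ⟪C.γ τ - C.γ s, T⟫ ∧
    |⟪C.γ τ - C.γ s, n⟫| ≤ 251 / 498 * dist (C.γ τ) (C.γ t) := by
  have hh := h.hpos
  have hρ := h.rho_left
  constructor
  · have h3 := sign_right C h.h1 (by have := h.h2; have := h.h3; linarith) (by
      intro t' h4 h5
      rcases eq_or_lt_of_le h5 with h6 | h6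
      · rw [h6, dist_comm, h.heq]
        linarith
      · have h7 : τ - 1 < t' := by have := h.h2; have := h.h3; linarith
        have h8 : ∀ t'', t' ≤ t'' → t'' < τ →
            dist (C.γ τ) (C.γ t'') < lfs C.carrier (C.γ τ) := fun t'' h9 h10 =>
          h.hL t'' (by linarith) h10
        have h9 : dist (C.γ τ) (C.γ t') < dist (C.γ τ) (C.γ s) :=
          arc_mono_left C h4 h5 (by have := h.h2; have := h.h3; linarith) h.hL
        rw [h.heq] at h9
        have h10 := h.left_dist h7 h6 h8 (by linarith)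
        have h11 := dist_nonneg (x := C.γ τ) (y := C.γ t')
        have h12 := dist_nonneg (x := C.γ s) (y := C.γ t')
        have h13 : dist (C.γ s) (C.γ t') ^ 2 < (2 * lfs C.carrier (C.γ s)) ^ 2 := by
          nlinarith
        exact lt_of_pow_lt_pow_left₀ 2 (by linarith) h13)
    rw [hDT, inner_smul_right] at h3
    by_contra hcon
    push Not at hcon
    have := mul_nonpos_of_nonneg_of_nonpos (norm_nonneg (deriv C.γ s)) hcon
    linarith
  · have h3 := tangent_abs C hn horth τ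
    rw [norm_eq_dist', dist_comm, h.heq] at h3
    have h5 := abs_nonneg ⟪C.γ τ - C.γ s, n⟫
    have h6 : dist (C.γ τ) (C.γ t) * (498 / 251 * |⟪C.γ τ - C.γ s, n⟫|) ≤
      dist (C.γ τ) (C.γ t) * dist (C.γ τ) (C.γ t) := by nlinarith
    have := le_of_mul_le_mul_left h6 hh
    linarith

/-- The direction to the next sample point is within `45°` of the tangent. -/
lemma EdgeData.next45 {s τ t : ℝ} (h : EdgeData C s τ t) :
    W45 (C.γ t - C.γ s) (deriv C.γ s) := by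
  obtain ⟨T, n, hT, hn, horth, hDT, hfr⟩ := exists_frame (C.regular s)
  rw [W45_frame (C.regular s) hDT hfr]
  have hh := h.hpos
  obtain ⟨h1, h2⟩ := h.centre_comp hn horth hDT
  have hX : ⟪C.γ τ - C.γ s, T⟫ ^ 2 + ⟪C.γ τ - C.γ s, n⟫ ^ 2 = dist (C.γ τ) (C.γ t) ^ 2 := by
    rw [frame_sq hfr, norm_eq_dist', dist_comm, h.heq]
  have e1 : ⟪C.γ τ - C.γ s, C.γ t - C.γ s⟫ =
      dist (C.γ τ) (C.γ t) ^ 2 - ⟪C.γ s - C.γ τ, C.γ t - C.γ τ⟫ := by
    have e2 : C.γ τ - C.γ s = -(C.γ s - C.γ τ) := by abel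
    have e3 : C.γ t - C.γ s = (C.γ t - C.γ τ) - (C.γ s - C.γ τ) := by abel
    rw [e2, e3, inner_neg_left, inner_sub_right, real_inner_self_eq_norm_sq, norm_eq_dist', h.heq]
    ring
  have hc : ⟪C.γ t - C.γ s, T⟫ ^ 2 + ⟪C.γ t - C.γ s, n⟫ ^ 2 =
      2 * (⟪C.γ τ - C.γ s, T⟫ * ⟪C.γ t - C.γ s, T⟫ + ⟪C.γ τ - C.γ s, n⟫ * ⟪C.γ t - C.γ s, n⟫) := by
    rw [← hfr, e1]
    have e3 : C.γ t - C.γ s = (C.γ t - C.γ τ) - (C.γ s - C.γ τ) := by abel
    rw [frame_sq hfr, e3, norm_sub_sq_real, norm_eq_dist', norm_eq_dist', h.heq, real_inner_comm]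
    ring
  have hflat : (2 - 2 * (251 / 1000) ^ 2) * dist (C.γ τ) (C.γ t) ^ 2 ≤
      ⟪C.γ τ - C.γ s, T⟫ * ⟪C.γ t - C.γ s, T⟫ + ⟪C.γ τ - C.γ s, n⟫ * ⟪C.γ t - C.γ s, n⟫ := by
    rw [← hfr, e1]
    have := h.flat
    linarith
  exact alg_next hh h1 hX h2 hc hflat

/-- A point of the medial axis that is closer to `γ s` than the half of the edge is behind the
normal line, within `45°` of the tangent. -/
lemma EdgeData.medial45 {s τ t : ℝ} (h : EdgeData C s τ t) {m : Pt}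
    (hm : m ∈ medialAxis C.carrier) (hd : dist m (C.γ s) ≤ dist (C.γ s) (C.γ t) / 2) :
    W45 (m - C.γ s) (-deriv C.γ s) := by
  obtain ⟨T, n, hT, hn, horth, hDT, hfr⟩ := exists_frame (C.regular s)
  rw [W45_frame_neg (C.regular s) hDT hfr]
  have hh := h.hpos
  have hρ := h.rho_left
  obtain ⟨h1, h2⟩ := h.centre_comp hn horth hDT
  have hX : ⟪C.γ τ - C.γ s, T⟫ ^ 2 + ⟪C.γ τ - C.γ s, n⟫ ^ 2 = dist (C.γ τ) (C.γ t) ^ 2 := by
    rw [frame_sq hfr, norm_eq_dist', dist_comm, h.heq]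
  have h3 : dist (C.γ s) (C.γ t) ≤ 2 * dist (C.γ τ) (C.γ t) := by
    have := dist_triangle (C.γ s) (C.γ τ) (C.γ t)
    rw [dist_comm (C.γ s) (C.γ τ), h.heq] at this
    linarith
  have ha : 0 < dist m (C.γ s) := by
    have := lfs_le_of_mem C (x := C.γ s) hm
    rw [dist_comm] at this
    linarith
  have he : ⟪m - C.γ s, T⟫ ^ 2 + ⟪m - C.γ s, n⟫ ^ 2 = dist m (C.γ s) ^ 2 := by
    rw [frame_sq hfr, dist_eq_norm]
  have hfar : (500 / 251 * dist (C.γ τ) (C.γ t)) ^ 2 ≤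
      (⟪C.γ τ - C.γ s, T⟫ - ⟪m - C.γ s, T⟫) ^ 2 + (⟪C.γ τ - C.γ s, n⟫ - ⟪m - C.γ s, n⟫) ^ 2 := by
    rw [← inner_sub_left, ← inner_sub_left]
    have e1 : C.γ τ - C.γ s - (m - C.γ s) = C.γ τ - m := by abel
    rw [e1]
    have e2 : ⟪C.γ τ - m, T⟫ ^ 2 + ⟪C.γ τ - m, n⟫ ^ 2 = dist (C.γ τ) m ^ 2 := by
      rw [frame_sq hfr, dist_eq_norm]
    rw [e2]
    have h4 := lfs_le_of_mem C (x := C.γ τ) hm
    have h5 := h.rho
    gcongr
    linarith
  exact alg_medial hh ha (by linarith) h1 hX h2 he hfar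

/-- A point of the left local arc beyond `γ s` is outside the closed disk with the edge as
diameter. -/
lemma EdgeData.gab_left {s τ t : ℝ} (h : EdgeData C s τ t) {tp : ℝ}
    (h1 : τ - 1 < tp) (h2 : tp < s)
    (hL : ∀ t', tp ≤ t' → t' < τ → dist (C.γ τ) (C.γ t') < lfs C.carrier (C.γ τ))
    (hd : dist (C.γ τ) (C.γ tp) ≤ 13 / 10 * dist (C.γ τ) (C.γ t)) :
    0 < ⟪C.γ s - C.γ tp, C.γ t - C.γ tp⟫ := by
  have hh := h.hpos
  have hρ := h.rho_left
  have hs := h.h1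
  have ht := h.h2
  have hst := h.h3
  -- all points between `tp` and `s` are close to `γ s`
  have hclose : ∀ t', tp ≤ t' → t' < s → dist (C.γ s) (C.γ t') < 12 / 10 * dist (C.γ τ) (C.γ t) := by
    intro t' h4 h5
    have h8 : ∀ t'', t' ≤ t'' → t'' < τ →
        dist (C.γ τ) (C.γ t'') < lfs C.carrier (C.γ τ) := fun t'' h9 h10 =>
      hL t'' (by linarith) h10
    have h9 : dist (C.γ τ) (C.γ t') ≤ dist (C.γ τ) (C.γ tp) := by
      rcases eq_or_lt_of_le h4 with h6 | h6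
      · rw [h6]
      · exact (arc_mono_left C h6 (by linarith) h1 hL).le
    have h10 : dist (C.γ τ) (C.γ t) < dist (C.γ τ) (C.γ t') := by
      rw [← h.heq]
      exact arc_mono_left C h5 (by linarith) (by linarith) h8
    have h11 := h.left_dist (tp := t') (by linarith) (by linarith) h8 (by linarith)
    have h13 : dist (C.γ s) (C.γ t') ^ 2 < (12 / 10 * dist (C.γ τ) (C.γ t)) ^ 2 := by
      nlinarith [mul_nonneg (sub_nonneg.mpr h10.le) (sub_nonneg.mpr (h9.trans hd))]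
    exact lt_of_pow_lt_pow_left₀ 2 (by positivity) h13
  have hb : W45 (C.γ tp - C.γ s) (-deriv C.γ s) := by
    obtain ⟨T, n, hT, hn, horth, hDT, hfr⟩ := exists_frame (C.regular s)
    rw [W45_frame_neg (C.regular s) hDT hfr]
    have h3 := sign_left C h2 (by linarith) (by
      intro t' h4 h5
      have := hclose t' h4 h5
      linarith)
    rw [hDT, inner_smul_right] at h3
    have h4 : ⟪C.γ tp - C.γ s, T⟫ < 0 := by
      by_contra hcon
      push Not at hcon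
      have := mul_nonneg (norm_nonneg (deriv C.γ s)) hcon
      linarith
    have h5 := tangent_abs C hn horth tp
    rw [norm_eq_dist'] at h5
    have h6 := hclose tp le_rfl h2
    set b := dist (C.γ s) (C.γ tp) with hbdef
    have hbpos : 0 < b := dist_pos.mpr (inj_lt C h2 (by linarith)).symm
    have h7 : |⟪C.γ tp - C.γ s, n⟫| ≤ 61 / 100 * b := by
      have h8 := abs_nonneg ⟪C.γ tp - C.γ s, n⟫
      have h9 : dist (C.γ τ) (C.γ t) * (498 / 251 * |⟪C.γ tp - C.γ s, n⟫|) ≤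
        dist (C.γ τ) (C.γ t) * (12 / 10 * b) := by nlinarith
      have := le_of_mul_le_mul_left h9 hh
      linarith
    have h8 : ⟪C.γ tp - C.γ s, T⟫ ^ 2 + ⟪C.γ tp - C.γ s, n⟫ ^ 2 = b ^ 2 := by
      rw [frame_sq hfr, norm_eq_dist']
    have h9 : ⟪C.γ tp - C.γ s, n⟫ ^ 2 ≤ (61 / 100 * b) ^ 2 := by
      rw [← sq_abs ⟪C.γ tp - C.γ s, n⟫]; gcongr
    apply abs_lt_of_sq_lt_sq _ (by linarith)
    nlinarith
  have hneg := W45_neg (C.regular s) hb h.next45
  have e1 : C.γ s - C.γ tp = -(C.γ tp - C.γ s) := by abel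
  have e2 : C.γ t - C.γ tp = (C.γ t - C.γ s) - (C.γ tp - C.γ s) := by abel
  rw [e1, e2, inner_neg_left, inner_sub_right]
  have := real_inner_self_nonneg (x := C.γ tp - C.γ s)
  linarith

/-- The closed disk with an edge as diameter contains no other sample point. -/
lemma EdgeData.gabriel {s τ t : ℝ} (h : EdgeData C s τ t) {p : Pt} (hp : p ∈ C.carrier)
    (hno : ∀ t', s ≤ t' → t' ≤ t → C.γ t' ≠ p) :
    0 < ⟪C.γ s - p, C.γ t - p⟫ := by
  by_contra hcon
  push Not at hcon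
  have hh := h.hpos
  have hs := h.h1
  have ht := h.h2
  have hst := h.h3
  have hρ := h.rho
  -- distance from the centre
  have hd : dist (C.γ τ) p ≤ 13 / 10 * dist (C.γ τ) (C.γ t) := by
    obtain ⟨z, hz⟩ : ∃ z, z = p - C.γ τ := ⟨_, rfl⟩
    obtain ⟨R, hR⟩ : ∃ z, z = C.γ s - C.γ τ := ⟨_, rfl⟩
    obtain ⟨U, hU⟩ : ∃ z, z = C.γ t - C.γ τ := ⟨_, rfl⟩
    have e1 : C.γ s - p = R - z := by rw [hz, hR]; abel
    have e2 : C.γ t - p = U - z := by rw [hz, hU]; abel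
    rw [e1, e2, inner_sub_left, inner_sub_right, inner_sub_right, real_inner_self_eq_norm_sq] at hcon
    have hflat := h.flat
    rw [← hR, ← hU] at hflat
    have hRU : ‖R + U‖ ≤ 502 / 1000 * dist (C.γ τ) (C.γ t) := by
      have h3 : ‖R + U‖ ^ 2 ≤ (502 / 1000 * dist (C.γ τ) (C.γ t)) ^ 2 := by
        have h5 : ‖R‖ = dist (C.γ τ) (C.γ t) := by rw [hR, norm_eq_dist', h.heq]
        have h6 : ‖U‖ = dist (C.γ τ) (C.γ t) := by rw [hU, norm_eq_dist']
        rw [norm_add_sq_real, h5, h6]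
        nlinarith
      exact le_of_sq_le_sq h3 (by positivity)
    have hRU2 : -dist (C.γ τ) (C.γ t) ^ 2 ≤ ⟪R, U⟫ := by
      have h4 := abs_real_inner_le_norm R U
      have h5 : ‖R‖ = dist (C.γ τ) (C.γ t) := by rw [hR, norm_eq_dist', h.heq]
      have h6 : ‖U‖ = dist (C.γ τ) (C.γ t) := by rw [hU, norm_eq_dist']
      rw [h5, h6] at h4
      have := (abs_le.mp h4).1
      linarith
    have h5 : ⟪z, R + U⟫ ≤ ‖z‖ * (502 / 1000 * dist (C.γ τ) (C.γ t)) :=
      (real_inner_le_norm _ _).trans (mul_le_mul_of_nonneg_left hRU (norm_nonneg _))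
    rw [inner_add_right] at h5
    rw [real_inner_comm z R] at hcon
    have h6 : ‖z‖ = dist (C.γ τ) p := by rw [hz, norm_eq_dist']
    rw [h6] at hcon h5
    by_contra hc2
    push Not at hc2
    nlinarith [dist_nonneg (x := C.γ τ) (y := p)]
  have hlt : dist (C.γ τ) p < lfs C.carrier (C.γ τ) := by linarith
  obtain ⟨t', h4, h5, h6⟩ := exists_param C τ hp
  have h7 : τ < t' := by
    rcases eq_or_lt_of_le h4 with h8 | h8
    · exact absurd (by rw [h8]; exact h6) (hno τ hs.le ht.le)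
    · exact h8
  subst h6
  rcases arc_dichotomy C h7 h5 hlt with hR | hL
  · -- right side: use the reversed curve
    have h8 : t < t' := by
      by_contra hc
      push Not at hc
      exact hno t' (by linarith) hc rfl
    have h9 := h.rev.gab_left (tp := -t') (by linarith) (by linarith) (by
      intro t'' h10 h11
      have := hR (-t'') (by linarith) (by linarith)
      simpa using this) (by
      simp only [rev_γ, neg_neg]
      rw [h.heq]
      exact hd)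
    simp only [rev_γ, neg_neg] at h9
    rw [real_inner_comm] at h9
    linarith
  · have h8 : t' - 1 < s := by
      by_contra hc
      push Not at hc
      have h9 := hno (t' - 1) hc (by linarith)
      apply h9
      have := C.periodic (t' - 1)
      rw [← this]; congr 1; ring
    have hper : ∀ u, C.γ (u - 1) = C.γ u := by
      intro u
      have := C.periodic (u - 1)
      rw [← this]; congr 1; ring
    have h9 := h.gab_left (tp := t' - 1) (by linarith) h8 (by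
      intro t'' h10 h11
      have := hL (t'' + 1) (by linarith) (by linarith)
      rwa [C.periodic] at this) (by
      rw [hper]; exact hd)
    rw [hper] at h9
    linarith

end Pool.Agent.H660R2.Curve
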