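import Mathlib

/-!
# Curve reconstruction: definitions
-/

namespace Pool.Agent.H660R2.Curve

open Set

/-- The plane. -/
abbrev Pt := EuclideanSpace ℝ (Fin 2)

/-- A simple closed curve in the plane with a regular `C¹` parametrization of period `1`.
(Every smooth simple closed curve is of this form.) -/
structure ClosedCurve where
  γ : ℝ → Pt
  smooth : ContDiff ℝ 1 γ
  regular : ∀ t, deriv γ t ≠ 0
  periodic : ∀ t, γ (t + 1) = γ t
  simple : ∀ s t, γ s = γ t → ∃ n : ℤ, s - t = n

/-- The set of points of the curve. -/
def ClosedCurve.carrier (C : ClosedCurve) : Set Pt := Set.range C.γ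

/-- The medial axis of `C`: centres of disks (of radius `r`) whose interior contains no point of `C`
and that touch `C` in at least two distinct points `a`, `b`. -/
def medialAxis (C : Set Pt) : Set Pt :=
  {z | ∃ r : ℝ, 0 < r ∧ (∀ c ∈ C, r ≤ dist z c) ∧
    ∃ a ∈ C, ∃ b ∈ C, a ≠ b ∧ dist z a = r ∧ dist z b = r}

/-- The local feature size: distance to the medial axis. -/
noncomputable def lfs (C : Set Pt) (x : Pt) : ℝ := Metric.infDist x (medialAxis C)

/-- `S` is an `ε`-sample of the curve `C`. -/
def IsSample (ε : ℝ) (C : ClosedCurve) (S : Finset Pt) : Prop :=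
  (∀ p ∈ S, p ∈ C.carrier) ∧ ∀ x ∈ C.carrier, ∃ p ∈ S, dist x p ≤ ε * lfs C.carrier x

/-- The points `p ≠ q` of `S` are consecutive along `C`: one of the two arcs of `C` between them
contains no other point of `S`. -/
def Consecutive (C : ClosedCurve) (S : Finset Pt) (p q : Pt) : Prop :=
  p ∈ S ∧ q ∈ S ∧ p ≠ q ∧ ∃ s t : ℝ, s < t ∧ t < s + 1 ∧
    ((C.γ s = p ∧ C.γ t = q) ∨ (C.γ s = q ∧ C.γ t = p)) ∧
    ∀ τ, s < τ → τ < t → C.γ τ ∉ S

/-- The edge set of the correct polygon reconstruction of `C` from `S`. -/
def correctPolygon (C : ClosedCurve) (S : Finset Pt) : Set (Sym2 Pt) :=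
  {e | ∃ p q, e = s(p, q) ∧ Consecutive C S p q}

/-- A reconstruction algorithm (a map from finite point sets to edge sets) is correct for `ε` if its
output is the correct polygon reconstruction for every curve and every `ε`-sample of it. -/
def CorrectFor (ε : ℝ) (A : Finset Pt → Set (Sym2 Pt)) : Prop :=
  ∀ (C : ClosedCurve) (S : Finset Pt), IsSample ε C S → A S = correctPolygon C S

/-- `p q` is a Gabriel pair of `S`: no other point of `S` lies in the closed disk with
diameter `pq`. -/
def Gabriel (S : Finset Pt) (p q : Pt) : Prop :=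
  p ≠ q ∧ ∀ z ∈ S, z ≠ p → z ≠ q → dist p q / 2 < dist z (midpoint ℝ p q)

/-- `p` and `w` are joined by an edge of the list `A`. -/
def Joined (A : List (Pt × Pt)) (p w : Pt) : Prop := (p, w) ∈ A ∨ (w, p) ∈ A

/-- The edge `pq` may be attached at its endpoint `p` to the edges in `A`: apart from `q`, at most
one point `w` is joined to `p`, and if there is such a `w` then the angle `w p q` is obtuse. -/
def Attachable (A : List (Pt × Pt)) (p q : Pt) : Prop :=
  ∀ w, Joined A p w → w ≠ q → inner ℝ (w - p) (q - p) < 0 ∧ ∀ w', Joined A p w' → w' ≠ q → w' = w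

open Classical in
/-- One step of the greedy algorithm: add the edge `e` to the list `A` of accepted edges if it is a
Gabriel pair and may be attached at both endpoints. -/
noncomputable def greedyStep (S : Finset Pt) (A : List (Pt × Pt)) (e : Pt × Pt) :
    List (Pt × Pt) :=
  if Gabriel S e.1 e.2 ∧ Attachable A e.1 e.2 ∧ Attachable A e.2 e.1 then e :: A else A

open Classical in
/-- All pairs of points of `S`, sorted by nondecreasing distance. -/
noncomputable def sortedPairs (S : Finset Pt) : List (Pt × Pt) :=
  (S ×ˢ S).toList.mergeSort (fun e f => decide (dist e.1 e.2 ≤ dist f.1 f.2))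

/-- The greedy reconstruction algorithm: process all pairs of points of `S` in order of
nondecreasing distance, with `greedyStep`; output the accepted edges. -/
noncomputable def gabrielGreedy (S : Finset Pt) : Set (Sym2 Pt) :=
  {e | ∃ p q, e = s(p, q) ∧ (p, q) ∈ (sortedPairs S).foldl (greedyStep S) []}

end Pool.Agent.H660R2.Curve
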