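import Pool.Agent.H660R2.CurveD

/-!
# Curve reconstruction: the algorithm
-/

set_option linter.unusedVariables false

namespace Pool.Agent.H660R2.Curve

open Set Filter Topology
open scoped RealInnerProductSpace

variable {C : ClosedCurve}

/-- `γ t` is the sample point next to the sample point `γ s`. -/
structure IsNext (C : ClosedCurve) (S : Finset Pt) (s t : ℝ) : Prop where
  lt : s < t
  lt' : t < s + 1
  hs : C.γ s ∈ S
  ht : C.γ t ∈ S
  no : ∀ τ, s < τ → τ < t → C.γ τ ∉ S

lemma IsNext.rev {S : Finset Pt} {s t : ℝ} (h : IsNext C S s t) :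
    IsNext (rev C) S (-t) (-s) where
  lt := by have := h.lt; linarith
  lt' := by have := h.lt'; linarith
  hs := by simpa using h.ht
  ht := by simpa using h.hs
  no := by
    intro τ h1 h2
    exact h.no (-τ) (by linarith) (by linarith)

lemma IsNext.consec {S : Finset Pt} {s t : ℝ} (h : IsNext C S s t) :
    Consecutive C S (C.γ s) (C.γ t) :=
  ⟨h.hs, h.ht, inj_lt C h.lt h.lt', s, t, h.lt, h.lt', Or.inl ⟨rfl, rfl⟩, h.no⟩

lemma Consecutive.symm {S : Finset Pt} {p q : Pt} (h : Consecutive C S p q) :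
    Consecutive C S q p := by
  obtain ⟨h1, h2, h3, s, t, h4, h5, h6, h7⟩ := h
  exact ⟨h2, h1, h3.symm, s, t, h4, h5, h6.symm, h7⟩

lemma γ_sub_int (t : ℝ) (n : ℤ) : C.γ (t - n) = C.γ t := by
  have := periodic_int C (t - n) n
  rw [← this]; congr 1; ring

lemma consec_cases {S : Finset Pt} {σ : ℝ} {q : Pt} (h : Consecutive C S (C.γ σ) q) :
    (∃ t, IsNext C S σ t ∧ C.γ t = q) ∨ (∃ t, IsNext C S t σ ∧ C.γ t = q) := by
  obtain ⟨h1, h2, h3, s, t, h4, h5, h6, h7⟩ := h
  rcases h6 with ⟨h8, h9⟩ | ⟨h8, h9⟩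
  · left
    obtain ⟨n, hn⟩ := C.simple s σ h8
    refine ⟨t - n, ⟨by linarith, by linarith, h1, ?_, ?_⟩, ?_⟩
    · rw [γ_sub_int, h9]; exact h2
    · intro τ h10 h11 h12
      apply h7 (τ + n) (by linarith) (by linarith)
      rwa [periodic_int]
    · rw [γ_sub_int, h9]
  · right
    obtain ⟨n, hn⟩ := C.simple t σ h9
    refine ⟨s - n, ⟨by linarith, by linarith, ?_, h1, ?_⟩, ?_⟩
    · rw [γ_sub_int, h8]; exact h2
    · intro τ h10 h11 h12
      apply h7 (τ + n) (by linarith) (by linarith)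
      rwa [periodic_int]
    · rw [γ_sub_int, h8]

lemma next_unique {S : Finset Pt} {σ t t' : ℝ} (h : IsNext C S σ t) (h' : IsNext C S σ t') :
    t = t' := by
  rcases lt_trichotomy t t' with h1 | h1 | h1
  · exact absurd h.ht (h'.no t h.lt h1)
  · exact h1
  · exact absurd h'.ht (h.no t' h'.lt h1)

lemma prev_unique {S : Finset Pt} {σ t t' : ℝ} (h : IsNext C S t σ) (h' : IsNext C S t' σ) :
    t = t' := by
  rcases lt_trichotomy t t' with h1 | h1 | h1
  · exact absurd h'.hs (h.no t' h1 h'.lt)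
  · exact h1
  · exact absurd h.hs (h'.no t h1 h.lt)

lemma exists_next (C : ClosedCurve) {S : Finset Pt} (hS : ∀ p ∈ S, p ∈ C.carrier) {σ : ℝ}
    (hσ : C.γ σ ∈ S) (hq : ∃ q ∈ S, q ≠ C.γ σ) : ∃ t, IsNext C S σ t := by
  set A : Set ℝ := {t | σ < t ∧ t < σ + 1 ∧ C.γ t ∈ S} with hA
  have hfin : A.Finite := by
    apply Set.Finite.of_finite_image (f := C.γ)
    · apply S.finite_toSet.subset
      rintro _ ⟨t, ht, rfl⟩
      exact ht.2.2
    · intro a ha b hb hab
      rcases lt_trichotomy a b with h1 | h1 | h1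
      · exact absurd hab (inj_lt C h1 (by linarith [ha.1, hb.2.1]))
      · exact h1
      · exact absurd hab.symm (inj_lt C h1 (by linarith [hb.1, ha.2.1]))
  have hne : A.Nonempty := by
    obtain ⟨q, hqS, hq⟩ := hq
    obtain ⟨t, h1, h2, h3⟩ := exists_param C σ (hS q hqS)
    refine ⟨t, lt_of_le_of_ne h1 ?_, h2, by rw [h3]; exact hqS⟩
    intro h4
    apply hq
    rw [← h3, ← h4]
  obtain ⟨t, ht, hmin⟩ := Set.exists_min_image A id hfin hne
  refine ⟨t, ht.1, ht.2.1, hσ, ht.2.2, ?_⟩
  intro τ h1 h2 h3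
  have := hmin τ ⟨h1, by linarith [ht.2.1], h3⟩
  simp at this
  linarith

lemma exists_prev (C : ClosedCurve) {S : Finset Pt} (hS : ∀ p ∈ S, p ∈ C.carrier) {σ : ℝ}
    (hσ : C.γ σ ∈ S) (hq : ∃ q ∈ S, q ≠ C.γ σ) : ∃ t, IsNext C S t σ := by
  obtain ⟨t, ht⟩ := exists_next (rev C) (S := S) (σ := -σ) (by simpa using hS) (by simpa using hσ)
    (by simpa using hq)
  refine ⟨-t, ?_⟩
  have h := ht.rev
  have e : rev (rev C) = C := by
    cases C
    simp [Curve.rev]
  rw [e] at h
  simpa using h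

/-- every edge of the polygon has a centre -/
lemma IsNext.edge {S : Finset Pt} (hS : IsSample (251 / 500) C S) {s t : ℝ}
    (h : IsNext C S s t) : ∃ τ, EdgeData C s τ t := by
  have h1 := h.lt
  have h2 := h.lt'
  -- the point equidistant from both endpoints
  have hc : ContinuousOn (fun t' => dist (C.γ t') (C.γ s) - dist (C.γ t') (C.γ t)) (Icc s t) := by
    apply Continuous.continuousOn
    exact ((cont C).dist continuous_const).sub ((cont C).dist continuous_const)
  have hd : 0 < dist (C.γ s) (C.γ t) := dist_pos.mpr (inj_lt C h1 h2)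
  obtain ⟨τ, hτ, hτ0⟩ := intermediate_value_Icc h1.le hc
    (show (0 : ℝ) ∈ Icc _ _ by
      constructor
      · simp only [dist_self]; linarith
      · simp only [dist_self]; rw [dist_comm]; linarith)
  have heq : dist (C.γ τ) (C.γ s) = dist (C.γ τ) (C.γ t) := by
    simp only at hτ0; linarith
  have hτs : s < τ := by
    rcases eq_or_lt_of_le hτ.1 with h3 | h3
    · rw [← h3, dist_self] at heq; linarith
    · exact h3
  have hτt : τ < t := by
    rcases eq_or_lt_of_le hτ.2 with h3 | h3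
    · rw [h3, dist_self, dist_comm] at heq; linarith
    · exact h3
  obtain ⟨p, hpS, hp⟩ := hS.2 (C.γ τ) (mem_carrier C τ)
  have hρ : 0 < lfs C.carrier (C.γ τ) := by
    rcases (lfs_nonneg C (C.γ τ)).eq_or_lt with h3 | h3
    · exfalso
      rw [← h3, mul_zero] at hp
      have h4 : C.γ τ = p := dist_eq_zero.mp (le_antisymm hp dist_nonneg)
      exact h.no τ hτs hτt (by rw [h4]; exact hpS)
    · exact h3
  have hplt : dist (C.γ τ) p < lfs C.carrier (C.γ τ) := by linarith
  obtain ⟨t', h3, h4, h5⟩ := exists_param C τ (hS.1 p hpS)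
  have h6 : τ < t' := by
    rcases eq_or_lt_of_le h3 with h7 | h7
    · exfalso
      rw [← h7] at h5
      exact h.no τ hτs hτt (by rw [h5]; exact hpS)
    · exact h7
  subst h5
  have hpers : C.γ (s + 1) = C.γ s := C.periodic s
  have hleft : ∀ {u : ℝ}, τ < u → u < τ + 1 →
      (∀ t'', u ≤ t'' → t'' < τ + 1 → dist (C.γ τ) (C.γ t'') < lfs C.carrier (C.γ τ)) →
      ∀ v, u < v → v < τ + 1 → dist (C.γ τ) (C.γ v) < dist (C.γ τ) (C.γ u) := by
    intro u hu1 hu2 hu3 v hv1 hv2
    have := arc_mono_left C (τ := τ) (t1 := u - 1) (t2 := v - 1) (by linarith) (by linarith)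
      (by linarith) (by
        intro t'' h7 h8
        have := hu3 (t'' + 1) (by linarith) (by linarith)
        rwa [C.periodic] at this)
    have e1 : C.γ (u - 1) = C.γ u := by
      have := γ_sub_int (C := C) u 1
      simpa using this
    have e2 : C.γ (v - 1) = C.γ v := by
      have := γ_sub_int (C := C) v 1
      simpa using this
    rwa [e1, e2] at this
  -- both endpoints are on the local arc
  have key : dist (C.γ τ) (C.γ t) ≤ 251 / 500 * lfs C.carrier (C.γ τ) := by
    rcases arc_dichotomy C h6 h4 hplt with hR | hL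
    · have h7 : t ≤ t' := by
        by_contra hcon
        push Not at hcon
        exact h.no t' (by linarith) hcon hpS
      rcases eq_or_lt_of_le h7 with h8 | h8
      · rw [h8]; exact hp
      · exact (arc_mono C hτt.le h8 h4 hR).le.trans hp
    · have h7 : t' ≤ s + 1 := by
        by_contra hcon
        push Not at hcon
        apply h.no (t' - 1) (by linarith) (by linarith)
        have := γ_sub_int (C := C) t' 1
        simp only [Int.cast_one] at this
        rw [this]; exact hpS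
      rw [← heq, ← hpers]
      rcases eq_or_lt_of_le h7 with h8 | h8
      · rw [← h8]; exact hp
      · exact (hleft h6 h4 hL (s + 1) h8 (by linarith)).le.trans hp
  have hlt : dist (C.γ τ) (C.γ t) < lfs C.carrier (C.γ τ) := by linarith
  refine ⟨τ, hτs, hτt, h2, heq, key, ?_, ?_⟩
  · rcases arc_dichotomy C hτt (by linarith) hlt with hR | hL
    · exact hR
    · exfalso
      have h7 := hleft hτt (by linarith) hL (s + 1) h2 (by linarith)
      rw [hpers, heq] at h7
      exact lt_irrefl _ h7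
  · have hlt' : dist (C.γ τ) (C.γ (s + 1)) < lfs C.carrier (C.γ τ) := by
      rw [hpers, heq]; exact hlt
    rcases arc_dichotomy C (by linarith) (by linarith) hlt' with hR | hL
    · exfalso
      have h7 := arc_mono C hτt.le h2 (by linarith) hR
      rw [hpers, heq] at h7
      exact lt_irrefl _ h7
    · intro t'' h7 h8
      have := hL (t'' + 1) (by linarith) (by linarith)
      rwa [C.periodic] at this

section Facts

variable {S : Finset Pt} (hS : IsSample (251 / 500) C S)
include hS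

lemma next45 {s t : ℝ} (h : IsNext C S s t) : W45 (C.γ t - C.γ s) (deriv C.γ s) := by
  obtain ⟨τ, hτ⟩ := h.edge hS
  exact hτ.next45

lemma prev45 {s t : ℝ} (h : IsNext C S s t) : W45 (C.γ s - C.γ t) (-deriv C.γ t) := by
  obtain ⟨τ, hτ⟩ := h.edge hS
  have := hτ.rev.next45
  rw [rev_deriv] at this
  simpa using this

lemma medial45_next {s t : ℝ} (h : IsNext C S s t) {m : Pt}
    (hm : m ∈ medialAxis C.carrier) (hd : dist m (C.γ s) ≤ dist (C.γ s) (C.γ t) / 2) :
    W45 (m - C.γ s) (-deriv C.γ s) := by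
  obtain ⟨τ, hτ⟩ := h.edge hS
  exact hτ.medial45 hm hd

lemma medial45_prev {s t : ℝ} (h : IsNext C S s t) {m : Pt}
    (hm : m ∈ medialAxis C.carrier) (hd : dist m (C.γ t) ≤ dist (C.γ t) (C.γ s) / 2) :
    W45 (m - C.γ t) (deriv C.γ t) := by
  obtain ⟨τ, hτ⟩ := h.edge hS
  have := hτ.rev.medial45 (m := m) (by simpa using hm) (by simpa using hd)
  rw [rev_deriv] at this
  simpa using this

lemma next_gabriel {s t : ℝ} (h : IsNext C S s t) {z : Pt} (hz : z ∈ S) (h1 : z ≠ C.γ s)
    (h2 : z ≠ C.γ t) : 0 < ⟪C.γ s - z, C.γ t - z⟫ := by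
  obtain ⟨τ, hτ⟩ := h.edge hS
  apply hτ.gabriel (hS.1 z hz)
  intro t' h3 h4 h5
  rcases eq_or_lt_of_le h3 with h6 | h6
  · apply h1; rw [← h5, ← h6]
  · rcases eq_or_lt_of_le h4 with h7 | h7
    · apply h2; rw [← h5, ← h7]
    · exact h.no t' h6 h7 (by rw [h5]; exact hz)

/-- the sample points on both sides make an obtuse angle -/
lemma consec_obtuse {p q w : Pt} (h1 : Consecutive C S p q) (h2 : Consecutive C S p w)
    (hne : w ≠ q) : ⟪w - p, q - p⟫ < 0 := by
  obtain ⟨σ, hσ⟩ := hS.1 p h1.1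
  subst hσ
  rcases consec_cases h1 with ⟨t, ht, rfl⟩ | ⟨t, ht, rfl⟩ <;>
  rcases consec_cases h2 with ⟨t', ht', rfl⟩ | ⟨t', ht', rfl⟩
  · exact absurd (by rw [next_unique ht ht']) hne
  · exact W45_neg (C.regular σ) (prev45 hS ht') (next45 hS ht)
  · rw [real_inner_comm]
    exact W45_neg (C.regular σ) (prev45 hS ht) (next45 hS ht')
  · exact absurd (by rw [prev_unique ht ht']) hne

lemma consec_two {p q w w' : Pt} (h1 : Consecutive C S p q) (h2 : Consecutive C S p w)
    (h3 : Consecutive C S p w') (hne : w ≠ q) (hne' : w' ≠ q) : w' = w := by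
  obtain ⟨σ, hσ⟩ := hS.1 p h1.1
  subst hσ
  rcases consec_cases h1 with ⟨t, ht, rfl⟩ | ⟨t, ht, rfl⟩ <;>
  rcases consec_cases h2 with ⟨t', ht', rfl⟩ | ⟨t', ht', rfl⟩ <;>
  rcases consec_cases h3 with ⟨t'', ht'', rfl⟩ | ⟨t'', ht'', rfl⟩
  · rw [next_unique ht' ht'']
  · exact absurd (by rw [next_unique ht ht']) hne
  · exact absurd (by rw [next_unique ht ht'']) hne'
  · rw [prev_unique ht' ht'']
  · rw [next_unique ht' ht'']
  · exact absurd (by rw [prev_unique ht ht'']) hne'
  · exact absurd (by rw [prev_unique ht ht']) hne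
  · rw [prev_unique ht' ht'']

omit hS in
lemma inner_pos_iff_gabriel {p q z : Pt} : 0 < ⟪p - z, q - z⟫ ↔
    dist p q / 2 < dist z (midpoint ℝ p q) := by
  have e1 : dist z (midpoint ℝ p q) ^ 2 = ⟪p - z, q - z⟫ + (dist p q / 2) ^ 2 := by
    have h1 : z - midpoint ℝ p q = -((1 / 2 : ℝ) • ((p - z) + (q - z))) := by
      rw [midpoint_eq_smul_add]
      simp only [invOf_eq_inv]
      module
    have h2 : p - q = (p - z) - (q - z) := by abel
    rw [dist_eq_norm, dist_eq_norm, h1, h2]
    generalize p - z = a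
    generalize q - z = b
    rw [norm_neg, norm_smul, mul_pow, div_pow, norm_add_sq_real, norm_sub_sq_real]
    norm_num
    ring
  constructor
  · intro h
    apply lt_of_pow_lt_pow_left₀ 2 dist_nonneg
    rw [e1]; linarith
  · intro h
    have h2 : (dist p q / 2) ^ 2 < dist z (midpoint ℝ p q) ^ 2 := by
      have := dist_nonneg (x := p) (y := q)
      gcongr
    rw [e1] at h2
    linarith

lemma consec_gabriel {p q : Pt} (h : Consecutive C S p q) : Gabriel S p q := by
  refine ⟨h.2.2.1, fun z hz h1 h2 => ?_⟩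
  rw [← inner_pos_iff_gabriel]
  obtain ⟨σ, hσ⟩ := hS.1 p h.1
  subst hσ
  rcases consec_cases h with ⟨t, ht, rfl⟩ | ⟨t, ht, rfl⟩
  · exact next_gabriel hS ht hz h1 h2
  · rw [real_inner_comm]
    exact next_gabriel hS ht hz h2 h1

/-- the core of the correctness proof -/
lemma nonedge_core {v w m : Pt} (hv : v ∈ S) (hw : w ∈ S) (hvw : v ≠ w)
    (hE : ¬ Consecutive C S v w) (hm : m ∈ medialAxis C.carrier) (hseg : m ∈ segment ℝ v w)
    (hd : dist m v ≤ dist v w / 2) :
    (∃ u u', u ≠ u' ∧ Consecutive C S v u ∧ Consecutive C S v u' ∧ dist v u < dist v w ∧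
      dist v u' < dist v w) ∨
    (∃ u, Consecutive C S v u ∧ dist v u < dist v w ∧ 0 ≤ ⟪u - v, w - v⟫) := by
  obtain ⟨σ, hσ⟩ := hS.1 v hv
  subst hσ
  obtain ⟨a, ha⟩ := exists_next C hS.1 hv ⟨w, hw, hvw.symm⟩
  obtain ⟨b, hb⟩ := exists_prev C hS.1 hv ⟨w, hw, hvw.symm⟩
  have hEa := ha.consec
  have hEb := hb.consec.symm
  -- the direction of m
  obtain ⟨α, β, hα, hβ, hαβ, rfl⟩ := hseg
  have e1 : α • C.γ σ + β • w - C.γ σ = β • (w - C.γ σ) := by
    have : α = 1 - β := by linarith
    rw [this]; module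
  have hdir : ∀ u, 0 < ⟪u - C.γ σ, α • C.γ σ + β • w - C.γ σ⟫ → 0 ≤ ⟪u - C.γ σ, w - C.γ σ⟫ := by
    intro u hu
    rw [e1, inner_smul_right] at hu
    by_contra hcon
    push Not at hcon
    have := mul_nonpos_of_nonneg_of_nonpos hβ hcon.le
    linarith
  rcases lt_or_ge (dist (C.γ σ) (C.γ a)) (dist (C.γ σ) w) with h1 | h1 <;>
  rcases lt_or_ge (dist (C.γ σ) (C.γ b)) (dist (C.γ σ) w) with h2 | h2
  · left
    refine ⟨C.γ a, C.γ b, ?_, hEa, hEb, h1, h2⟩
    intro hab
    obtain ⟨n, hn⟩ := C.simple a b hab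
    have i1 := ha.lt
    have i2 := ha.lt'
    have i3 := hb.lt
    have i4 := hb.lt'
    have h3 : (0 : ℝ) < n := by linarith
    have h4 : (n : ℝ) < 2 := by linarith
    have h5 : (0 : ℤ) < n := by exact_mod_cast h3
    have h6 : n < (2 : ℤ) := by exact_mod_cast h4
    have h7 : n = 1 := by omega
    rw [h7] at hn
    simp only [Int.cast_one] at hn
    obtain ⟨θ, j1, j2, j3⟩ := exists_param C σ (hS.1 w hw)
    have j4 : σ < θ := by
      rcases eq_or_lt_of_le j1 with k | k
      · exact absurd (by rw [k]; exact j3) hvw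
      · exact k
    rcases lt_trichotomy θ a with k | k | k
    · exact ha.no θ j4 k (by rw [j3]; exact hw)
    · rw [k] at j3
      apply hE
      rw [← j3]; exact hEa
    · apply hb.no (θ - 1) (by linarith) (by linarith)
      have := γ_sub_int (C := C) θ 1
      simp only [Int.cast_one] at this
      rw [this, j3]; exact hw
  · right
    refine ⟨C.γ a, hEa, h1, hdir _ ?_⟩
    have h3 := medial45_prev hS hb hm (by linarith)
    exact W45_pos (C.regular σ) (next45 hS ha) h3
  · right
    refine ⟨C.γ b, hEb, h2, hdir _ ?_⟩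
    have h3 := medial45_next hS ha hm (by linarith)
    exact W45_pos (neg_ne_zero.mpr (C.regular σ)) (prev45 hS hb) h3
  · exfalso
    exact W45_absurd (medial45_prev hS hb hm (by linarith)) (medial45_next hS ha hm (by linarith))

/-- A Gabriel pair that is not an edge is blocked by shorter edges at one of its endpoints. -/
lemma nonedge {p q : Pt} (hp : p ∈ S) (hq : q ∈ S) (hG : Gabriel S p q)
    (hE : ¬ Consecutive C S p q) : ∃ v w : Pt, ((v = p ∧ w = q) ∨ (v = q ∧ w = p)) ∧
    ((∃ u u', u ≠ u' ∧ Consecutive C S v u ∧ Consecutive C S v u' ∧ dist v u < dist p q ∧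
      dist v u' < dist p q) ∨
    (∃ u, Consecutive C S v u ∧ dist v u < dist p q ∧ 0 ≤ ⟪u - v, w - v⟫)) := by
  obtain ⟨s, hs⟩ := hS.1 p hp
  subst hs
  obtain ⟨t, h1, h2, h3⟩ := exists_param C s (hS.1 q hq)
  subst h3
  have h3 : s < t := by
    rcases eq_or_lt_of_le h1 with k | k
    · exact absurd (by rw [k]) hG.1
    · exact k
  obtain ⟨τ1, i1, i2, i3⟩ : ∃ τ, s < τ ∧ τ < t ∧ C.γ τ ∈ S := by
    by_contra hcon
    push Not at hcon
    exact hE (IsNext.consec ⟨h3, h2, hp, hq, hcon⟩)
  obtain ⟨τ2, j1, j2, j3⟩ : ∃ τ, t < τ ∧ τ < s + 1 ∧ C.γ τ ∈ S := by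
    by_contra hcon
    push Not at hcon
    have h4 : IsNext C S t (s + 1) := ⟨h2, by linarith, hq, by rw [C.periodic]; exact hp, hcon⟩
    have := h4.consec.symm
    rw [C.periodic] at this
    exact hE this
  have hd1 := (inner_pos_iff_gabriel (p := C.γ s) (q := C.γ t)).mpr (hG.2 (C.γ τ1) i3
    (inj_lt C i1 (by linarith)).symm (inj_lt C i2 (by linarith)))
  have hd2 := (inner_pos_iff_gabriel (p := C.γ s) (q := C.γ t)).mpr (hG.2 (C.γ τ2) j3
    (inj_lt C (by linarith) j2).symm (inj_lt C j1 (by linarith)).symm)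
  obtain ⟨m, hm, hseg⟩ := segment_medial C i1 i2 j1 j2 hd1 hd2
  have hsum : dist (C.γ s) m + dist m (C.γ t) = dist (C.γ s) (C.γ t) :=
    dist_add_dist_of_mem_segment hseg
  rcases le_total (dist m (C.γ s)) (dist m (C.γ t)) with hle | hle
  · refine ⟨C.γ s, C.γ t, Or.inl ⟨rfl, rfl⟩, ?_⟩
    apply nonedge_core hS hp hq hG.1 hE hm hseg
    rw [dist_comm (C.γ s) m] at hsum
    linarith
  · refine ⟨C.γ t, C.γ s, Or.inr ⟨rfl, rfl⟩, ?_⟩
    have := nonedge_core hS hq hp hG.1.symm (fun h => hE h.symm) hm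
      (by rw [segment_symm]; exact hseg) (by
        rw [dist_comm (C.γ s) m] at hsum
        rw [dist_comm (C.γ t) (C.γ s)]
        linarith)
    rw [dist_comm (C.γ t) (C.γ s)] at this
    exact this

end Facts

open Classical in
lemma mem_greedyStep {S : Finset Pt} {A : List (Pt × Pt)} {e f : Pt × Pt} :
    f ∈ greedyStep S A e ↔ f ∈ A ∨
      (f = e ∧ Gabriel S e.1 e.2 ∧ Attachable A e.1 e.2 ∧ Attachable A e.2 e.1) := by
  unfold greedyStep
  split_ifs with h
  · simp only [List.mem_cons]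
    tauto
  · tauto

/-- the greedy algorithm accepts exactly the edges of the polygon -/
lemma greedy_invariant {S : Finset Pt} (hS : IsSample (251 / 500) C S) {L : List (Pt × Pt)}
    (hL : ∀ p q, (p, q) ∈ L ↔ p ∈ S ∧ q ∈ S)
    (hsort : L.Pairwise (fun e f => dist e.1 e.2 ≤ dist f.1 f.2)) :
    ∀ (L1 L2 : List (Pt × Pt)), L1 ++ L2 = L → ∀ p q,
      (p, q) ∈ L1.foldl (greedyStep S) [] ↔ (p, q) ∈ L1 ∧ Consecutive C S p q := by
  intro L1
  induction L1 using List.reverseRecOn with
  | nil => intro L2 _ p q; simp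
  | append_singleton L1 e ih =>
    intro L2 hL12 p q
    rw [List.append_assoc, List.singleton_append] at hL12
    have ih' := ih (e :: L2) hL12
    rw [List.foldl_append, List.foldl_cons, List.foldl_nil, mem_greedyStep, ih']
    set A := L1.foldl (greedyStep S) [] with hA
    -- shorter pairs have been processed
    have hshort : ∀ a b, a ∈ S → b ∈ S → dist a b < dist e.1 e.2 → (a, b) ∈ L1 := by
      intro a b ha hb hab
      have h1 : (a, b) ∈ L := (hL a b).mpr ⟨ha, hb⟩
      rw [← hL12, List.mem_append] at h1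
      rcases h1 with h1 | h1
      · exact h1
      · exfalso
        rw [← hL12, List.pairwise_append] at hsort
        have h2 := hsort.2.1
        rw [List.pairwise_cons] at h2
        rcases List.mem_cons.mp h1 with h3 | h3
        · rw [← h3] at hab
          exact lt_irrefl _ hab
        · have := h2.1 _ h3
          simp only at this
          linarith
    have hjoin : ∀ a b, Joined A a b → Consecutive C S a b := by
      intro a b hab
      rcases hab with h | h
      · exact ((ih' a b).mp h).2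
      · exact ((ih' b a).mp h).2.symm
    have hjoin' : ∀ a b, Consecutive C S a b → dist a b < dist e.1 e.2 → Joined A a b := by
      intro a b hab hlt
      left
      exact (ih' a b).mpr ⟨hshort a b hab.1 hab.2.1 hlt, hab⟩
    have heS : e.1 ∈ S ∧ e.2 ∈ S := by
      apply (hL e.1 e.2).mp
      rw [← hL12]
      simp
    constructor
    · rintro (⟨h1, h2⟩ | ⟨h1, hG, hA1, hA2⟩)
      · exact ⟨List.mem_append_left _ h1, h2⟩
      · refine ⟨by rw [h1]; simp, ?_⟩
        have hpq : p = e.1 ∧ q = e.2 := by rw [← h1]; exact ⟨rfl, rfl⟩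
        rw [hpq.1, hpq.2]
        by_contra hE
        obtain ⟨v, w, hvw, hcase⟩ := nonedge hS heS.1 heS.2 hG hE
        have hAtt : Attachable A v w := by
          rcases hvw with ⟨rfl, rfl⟩ | ⟨rfl, rfl⟩
          · exact hA1
          · exact hA2
        have hEvw : ¬ Consecutive C S v w := by
          rcases hvw with ⟨rfl, rfl⟩ | ⟨rfl, rfl⟩
          · exact hE
          · exact fun h => hE h.symm
        rcases hcase with ⟨u, u', hne, hu, hu', hd, hd'⟩ | ⟨u, hu, hd, hin⟩
        · have h3 := hjoin' v u hu hd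
          have h4 := hjoin' v u' hu' hd'
          have huw : u ≠ w := fun h => hEvw (h ▸ hu)
          have huw' : u' ≠ w := fun h => hEvw (h ▸ hu')
          exact hne ((hAtt u h3 huw).2 u' h4 huw').symm
        · have h3 := hjoin' v u hu hd
          have huw : u ≠ w := fun h => hEvw (h ▸ hu)
          have := (hAtt u h3 huw).1
          linarith
    · rintro ⟨h1, h2⟩
      rcases List.mem_append.mp h1 with h3 | h3
      · exact Or.inl ⟨h3, h2⟩
      · right
        have h4 : (p, q) = e := by simpa using h3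
        have hpq : p = e.1 ∧ q = e.2 := by rw [← h4]; exact ⟨rfl, rfl⟩
        rw [hpq.1, hpq.2] at h2
        have hatt : ∀ a b, Consecutive C S a b → Attachable A a b := by
          intro a b hab w hw hne
          refine ⟨consec_obtuse hS hab (hjoin a w hw) hne, fun w' hw' hne' => ?_⟩
          exact consec_two hS hab (hjoin a w hw) (hjoin a w' hw') hne hne'
        exact ⟨h4, consec_gabriel hS h2, hatt _ _ h2, hatt _ _ h2.symm⟩

/-- sanity check: the medial axis of a closed curve is not empty -/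
lemma medialAxis_nonempty (C : ClosedCurve) : (medialAxis C.carrier).Nonempty := by
  -- a point of the curve farthest from `γ 0`
  obtain ⟨t0, ht0, hmax⟩ := (isCompact_Icc (a := (0 : ℝ)) (b := 1)).exists_isMaxOn ⟨0, by simp⟩
    (f := fun t => ‖C.γ t - C.γ 0‖ ^ 2) (((cont C).sub continuous_const).norm.pow 2).continuousOn
  have hmax' : ∀ t, ‖C.γ t - C.γ 0‖ ^ 2 ≤ ‖C.γ t0 - C.γ 0‖ ^ 2 := by
    intro t
    obtain ⟨t', h1, h2, h3⟩ := exists_param C 0 (mem_carrier C t)
    rw [← h3]
    exact hmax (show t' ∈ Icc (0 : ℝ) 1 from ⟨h1, by linarith⟩)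
  have hne : C.γ t0 ≠ C.γ 0 := by
    intro h
    have h1 := hmax' (1 / 2)
    rw [h, sub_self, norm_zero] at h1
    have h2 : C.γ 0 ≠ C.γ (1 / 2) := inj_lt C (by norm_num) (by norm_num)
    have h3 := norm_pos_iff.mpr (sub_ne_zero.mpr h2.symm)
    have : 0 < ‖C.γ (1 / 2) - C.γ 0‖ ^ 2 := by positivity
    simp only [ne_eq, OfNat.ofNat_ne_zero, not_false_eq_true, zero_pow] at h1
    linarith
  have hl : IsLocalMax (fun t => ‖C.γ t - C.γ 0‖ ^ 2) t0 :=
    Filter.Eventually.of_forall hmax'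
  have h0 := hl.hasDerivAt_eq_zero (hasDeriv_sq C (C.γ 0) t0)
  have hcrit : ⟪C.γ t0 - C.γ 0, deriv C.γ t0⟫ = 0 := by linarith
  have hpos : 0 < ‖C.γ 0 - C.γ t0‖ := norm_pos_iff.mpr (sub_ne_zero.mpr hne.symm)
  obtain ⟨s, -, -, hm⟩ := exists_medial_normal C (t0 := t0) (s0 := ‖C.γ 0 - C.γ t0‖)
    (n := (‖C.γ 0 - C.γ t0‖⁻¹) • (C.γ 0 - C.γ t0))
    (by rw [norm_smul, norm_inv, norm_norm, inv_mul_cancel₀ hpos.ne'])
    (by
      rw [inner_smul_left]
      have : ⟪C.γ 0 - C.γ t0, deriv C.γ t0⟫ = - ⟪C.γ t0 - C.γ 0, deriv C.γ t0⟫ := by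
        rw [← inner_neg_left, neg_sub]
      rw [this, hcrit]; simp) hpos.le
    ⟨0, by
      rw [smul_smul, mul_inv_cancel₀ hpos.ne', one_smul, add_sub_cancel, dist_self]; exact hpos⟩
  exact closure_nonempty_iff.mp ⟨_, hm⟩

theorem gabrielGreedy_correct : CorrectFor (251 / 500) gabrielGreedy := by
  intro C S hS
  have hL : ∀ p q, (p, q) ∈ sortedPairs S ↔ p ∈ S ∧ q ∈ S := by
    intro p q
    unfold sortedPairs
    rw [List.mem_mergeSort]
    simp
  have hsort : (sortedPairs S).Pairwise (fun e f => dist e.1 e.2 ≤ dist f.1 f.2) := by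
    unfold sortedPairs
    have := List.pairwise_mergeSort
      (le := fun (e f : Pt × Pt) => decide (dist e.1 e.2 ≤ dist f.1 f.2))
      (fun a b c h1 h2 => by simp at *; linarith)
      (fun a b => by
        simp only [Bool.or_eq_true, decide_eq_true_eq]
        exact le_total _ _) (S ×ˢ S).toList
    simpa using this
  have hinv := greedy_invariant hS hL hsort (sortedPairs S) [] (by simp)
  unfold gabrielGreedy correctPolygon
  ext e
  simp only [Set.mem_ofPred_eq]
  constructor
  · rintro ⟨p, q, he, h⟩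
    exact ⟨p, q, he, ((hinv p q).mp h).2⟩
  · rintro ⟨p, q, he, h⟩
    exact ⟨p, q, he, (hinv p q).mpr ⟨(hL p q).mpr ⟨h.1, h.2.1⟩, h⟩⟩

end Pool.Agent.H660R2.Curve
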